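import Pool.Agent.X127.PB.Gr

/-! # The laws of `u` and of its rescaled gradient dominate each other -/

set_option autoImplicit false
open MeasureTheory Filter Topology Metric
open scoped ContDiff ENNReal

namespace Pool.Agent.X127.PB

open Pool.Agent.TH298.Sch (X er norm_X X_cont)
open TH259.NS (B)
open Pool.Agent.X127.SW (conv_cont)

noncomputable section

/-- even convex functions are nondecreasing in the absolute value -/
lemma even_mono {Φ : ℝ → ℝ} (cΦ : ConvexOn ℝ Set.univ Φ) (ev : ∀ x, Φ (-x) = Φ x) {x y : ℝ}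
    (h : |x| ≤ |y|) : Φ x ≤ Φ y := by
  have ea : ∀ t, Φ |t| = Φ t := fun t => by
    rcases abs_choice t with h | h
    · rw [h]
    · rw [h, ev]
  rw [← ea x, ← ea y]
  rcases (abs_nonneg y).eq_or_lt with h0 | h0
  · have : |x| = 0 := le_antisymm (h.trans h0.symm.le) (abs_nonneg x)
    rw [this, ← h0]
  · have hp : 0 ≤ (|x| + |y|) / (2 * |y|) := by positivity
    have hq : 0 ≤ (|y| - |x|) / (2 * |y|) := div_nonneg (by linarith) (by positivity)
    have hpq : (|x| + |y|) / (2 * |y|) + (|y| - |x|) / (2 * |y|) = 1 := by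
      field_simp
      ring
    have := cΦ.2 (Set.mem_univ |y|) (Set.mem_univ (-|y|)) hp hq hpq
    simp only [smul_eq_mul] at this
    rw [ev] at this
    have e1 : (|x| + |y|) / (2 * |y|) * |y| + (|y| - |x|) / (2 * |y|) * -|y| = |x| := by
      field_simp
      ring
    have e2 : (|x| + |y|) / (2 * |y|) * Φ |y| + (|y| - |x|) / (2 * |y|) * Φ |y| = Φ |y| := by
      rw [← add_mul, hpq, one_mul]
    rw [e1, e2] at this
    exact this

/-- averaging over circles -/
lemma avg {K Ω : Set ℂ} (hK : MeasurableSet K) (hΩ : IsOpen Ω) {r : ℝ} (hr : 0 ≤ r)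
    (hKΩ : ∀ z ∈ K, closedBall z r ⊆ Ω) {f g : ℂ → ℝ} (g0 : ∀ z, 0 ≤ g z) (cg : ContinuousOn g Ω)
    (h : ∀ z ∈ K, f z ≤ ∫ θ, g (z + X r θ) ∂cu) :
    ∫⁻ z in K, ENNReal.ofReal (f z) ≤ ∫⁻ z in Ω, ENNReal.ofReal (g z) := by
  obtain ⟨w, hw⟩ : ∃ w : ℂ → ℝ≥0∞, w = Ω.indicator fun z => ENNReal.ofReal (g z) := ⟨_, rfl⟩
  have mw : Measurable w := by
    rw [hw]
    have h1 : Measurable (Ω.indicator g) := by
      classical
      rw [← Set.piecewise_eq_indicator]
      exact ContinuousOn.measurable_piecewise cg continuous_const.continuousOn hΩ.measurableSet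
    have h2 : (Ω.indicator fun z => ENNReal.ofReal (g z)) =
        fun z => ENNReal.ofReal (Ω.indicator g z) := by
      funext z
      by_cases hz : z ∈ Ω
      · rw [Set.indicator_of_mem hz, Set.indicator_of_mem hz]
      · rw [Set.indicator_of_notMem hz, Set.indicator_of_notMem hz, ENNReal.ofReal_zero]
    rw [h2]
    exact h1.ennreal_ofReal
  have pt : ∀ z ∈ K, ENNReal.ofReal (f z) ≤ ∫⁻ θ, w (z + X r θ) ∂cu := by
    intro z hz
    have inΩ : ∀ θ, z + X r θ ∈ Ω := fun θ => hKΩ z hz (by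
      rw [mem_closedBall, dist_eq_norm, add_sub_cancel_left, norm_X, abs_of_nonneg hr])
    have c1 : Continuous fun θ => g (z + X r θ) := by
      have cx : Continuous fun θ => z + X r θ :=
        continuous_const.add (X_cont.comp (continuous_const.prodMk continuous_id))
      exact cg.comp_continuous cx inΩ
    have e : ∫⁻ θ, w (z + X r θ) ∂cu = ∫⁻ θ, ENNReal.ofReal (g (z + X r θ)) ∂cu := by
      refine lintegral_congr fun θ => ?_
      rw [hw, Set.indicator_of_mem (inΩ θ)]
    rw [e, ← ofReal_integral_eq_lintegral_ofReal (cu_cont c1) (ae_of_all _ fun θ => g0 _)]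
    exact ENNReal.ofReal_le_ofReal (h z hz)
  calc ∫⁻ z in K, ENNReal.ofReal (f z) ≤
      ∫⁻ z in K, (∫⁻ θ, w (z + X r θ) ∂cu) := setLIntegral_mono' hK pt
    _ ≤ ∫⁻ z, (∫⁻ θ, w (z + X r θ) ∂cu) := setLIntegral_le_lintegral _ _
    _ = ∫⁻ θ, (∫⁻ z, w (z + X r θ)) ∂cu := by
        refine lintegral_lintegral_swap ?_
        have : Measurable (Function.uncurry fun (z : ℂ) (θ : ℝ) => w (z + X r θ)) := by
          refine mw.comp ?_
          have : Continuous fun p : ℂ × ℝ => p.1 + X r p.2 :=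
            continuous_fst.add (X_cont.comp (continuous_const.prodMk continuous_snd))
          exact this.measurable
        exact this.aemeasurable
    _ = ∫⁻ _, (∫⁻ z, w z) ∂cu := by
        refine lintegral_congr fun θ => ?_
        exact lintegral_add_right_eq_self w (X r θ)
    _ = ∫⁻ z, w z := by rw [lintegral_const, measure_univ, mul_one]
    _ = ∫⁻ z in Ω, ENNReal.ofReal (g z) := by
        rw [hw, lintegral_indicator hΩ.measurableSet]

/-- Jensen -/
lemma jen {Φ : ℝ → ℝ} (cΦ : ConvexOn ℝ Set.univ Φ) {k : ℝ → ℝ} (ck : Continuous k) :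
    Φ (∫ θ, k θ ∂cu) ≤ ∫ θ, Φ (k θ) ∂cu :=
  cΦ.map_integral_le (μ := cu) (f := k) (conv_cont cΦ).continuousOn
      isClosed_univ (ae_of_all _ fun _ => Set.mem_univ _) (cu_cont ck)
      (cu_cont ((conv_cont cΦ).comp ck))

variable {Ω : Set ℂ} {lam : ℝ} {u : ℂ → ℝ}

/-- **the value is dominated by the gradient** -/
theorem grad1 (hΩ : IsOpen Ω) (hl : 0 < lam) (su : ContDiffOn ℝ ∞ u Ω)
    (he : ∀ z ∈ Ω, lp u z + lam * u z = 0) {Φ : ℝ → ℝ}
    (cΦ : ConvexOn ℝ Set.univ Φ) (ev : ∀ x, Φ (-x) = Φ x) (Φ0 : ∀ x, 0 ≤ Φ x) :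
    ∫⁻ z in {z : ℂ | closedBall z (184 / 100 / √lam) ⊆ Ω}, ENNReal.ofReal (Φ (58 / 100 * u z)) ≤
      ∫⁻ z in Ω, ENNReal.ofReal (Φ (‖fderiv ℝ u z‖ / √lam)) := by
  have cc := conv_cont cΦ
  have pp := Real.pi_pos
  have sl : 0 < √lam := Real.sqrt_pos.2 hl
  obtain ⟨r, hr⟩ : ∃ r, r = 184 / 100 / √lam := ⟨_, rfl⟩
  have r0 : 0 < r := by rw [hr]; positivity
  rw [← hr]
  have er2 : lam * r ^ 2 / 4 = (92 / 100) ^ 2 := by
    rw [hr, div_pow, Real.sq_sqrt hl.le]
    field_simp
    norm_num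
  have cdu : ContinuousOn (fun z => ‖fderiv ℝ u z‖) Ω :=
    (su.continuousOn_fderiv_of_isOpen hΩ (by simp)).norm
  have cg : ContinuousOn (fun z => Φ (‖fderiv ℝ u z‖ / √lam)) Ω :=
    cc.comp_continuousOn (cdu.div_const _)
  refine avg (inner_open hΩ r0).measurableSet hΩ r0.le (fun z hz => hz) (fun z => Φ0 _) cg ?_
  intro z hz
  have hz : closedBall z r ⊆ Ω := hz
  obtain ⟨v, ρ', hρ', sv, ev1, ev2, ev3⟩ := loc hΩ su he r0 hz
  have fl := flux hl (r0.trans hρ') sv ev1 (r := r) ⟨r0, hρ'⟩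
  have v0 : v 0 = u z := by
    have := ev2 0 (by rw [norm_zero]; exact r0.trans hρ')
    rw [add_zero] at this
    exact this
  rw [er2, v0] at fl
  have nx : ∀ θ, ‖X r θ‖ < ρ' := fun θ => by rw [norm_X, abs_of_pos r0]; exact hρ'
  have inΩ : ∀ θ, z + X r θ ∈ Ω := fun θ => hz (by
    rw [mem_closedBall, dist_eq_norm, add_sub_cancel_left, norm_X, abs_of_pos r0])
  have cx : Continuous fun θ => z + X r θ :=
    continuous_const.add (X_cont.comp (continuous_const.prodMk continuous_id))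
  have c1 : Continuous fun θ => ‖fderiv ℝ u (z + X r θ)‖ / √lam :=
    (cdu.comp_continuous cx inΩ).div_const _
  refine le_trans ?_ (jen cΦ c1)
  refine even_mono cΦ ev ?_
  have hb := B1_low
  have b0 : 0 < B 1 ((92 / 100) ^ 2) := by
    by_contra h
    push Not at h
    linarith
  have k0 : 0 ≤ ∫ θ, ‖fderiv ℝ u (z + X r θ)‖ / √lam ∂cu :=
    integral_nonneg fun θ => by positivity
  rw [abs_of_nonneg k0, cu_int, intervalIntegral.integral_div, abs_mul,
    abs_of_pos (by norm_num : (0 : ℝ) < 58 / 100)]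
  have h1 : |∫ θ in (-Real.pi)..Real.pi, fderiv ℝ v (X r θ) (er θ)| ≤
      ∫ θ in (-Real.pi)..Real.pi, ‖fderiv ℝ u (z + X r θ)‖ := by
    refine (intervalIntegral.abs_integral_le_integral_abs (by linarith)).trans ?_
    have hd1 : Continuous (fderiv ℝ v) := sv.continuous_fderiv (by simp)
    have ca : Continuous fun θ => |fderiv ℝ v (X r θ) (er θ)| :=
      ((hd1.comp (X_cont.comp (continuous_const.prodMk continuous_id))).clm_apply er_cont').abs
    refine intervalIntegral.integral_mono_on (by linarith) (ca.intervalIntegrable _ _)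
      ((cdu.comp_continuous cx inΩ).intervalIntegrable _ _) fun θ _ => ?_
    rw [ev3 _ (nx θ)]
    have := (fderiv ℝ u (z + X r θ)).le_opNorm (er θ)
    rw [nrm_er, mul_one] at this
    exact this
  rw [fl, abs_mul, abs_neg, abs_of_pos (by positivity)] at h1
  have h2 : lam * r = √lam * (184 / 100) := by
    rw [hr]
    have : lam = √lam * √lam := (Real.mul_self_sqrt hl.le).symm
    field_simp
    rw [Real.sq_sqrt hl.le]
  have h3 : Real.pi * lam * r * B 1 ((92 / 100) ^ 2) =
      2 * Real.pi * √lam * (92 / 100 * B 1 ((92 / 100) ^ 2)) := by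
    rw [mul_assoc Real.pi, h2]; ring
  rw [h3] at h1
  rw [inv_mul_eq_div, div_div, le_div_iff₀ (by positivity)]
  calc 58 / 100 * |u z| * (√lam * (2 * Real.pi)) =
      2 * Real.pi * √lam * (58 / 100) * |u z| := by ring
    _ ≤ 2 * Real.pi * √lam * (92 / 100 * B 1 ((92 / 100) ^ 2)) * |u z| := by gcongr
    _ ≤ _ := h1

/-- **the gradient is dominated by the value** -/
theorem grad2 (hΩ : IsOpen Ω) (hl : 0 < lam) (su : ContDiffOn ℝ ∞ u Ω)
    (he : ∀ z ∈ Ω, lp u z + lam * u z = 0) {Φ : ℝ → ℝ}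
    (cΦ : ConvexOn ℝ Set.univ Φ) (ev : ∀ x, Φ (-x) = Φ x) (Φ0 : ∀ x, 0 ≤ Φ x) :
    ∫⁻ z in {z : ℂ | closedBall z (184 / 100 / √lam) ⊆ Ω},
        ENNReal.ofReal (Φ (58 / 100 * (‖fderiv ℝ u z‖ / √lam))) ≤
      ∫⁻ z in Ω, ENNReal.ofReal (Φ (u z)) := by
  have cc := conv_cont cΦ
  have pp := Real.pi_pos
  have sl : 0 < √lam := Real.sqrt_pos.2 hl
  obtain ⟨r, hr⟩ : ∃ r, r = 184 / 100 / √lam := ⟨_, rfl⟩
  have r0 : 0 < r := by rw [hr]; positivity
  rw [← hr]
  have er2 : lam * r ^ 2 / 4 = (92 / 100) ^ 2 := by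
    rw [hr, div_pow, Real.sq_sqrt hl.le]
    field_simp
    norm_num
  have ea : ∀ t, Φ |t| = Φ t := fun t => by
    rcases abs_choice t with h | h
    · rw [h]
    · rw [h, ev]
  have cg : ContinuousOn (fun z => Φ (u z)) Ω := cc.comp_continuousOn su.continuousOn
  refine avg (inner_open hΩ r0).measurableSet hΩ r0.le (fun z hz => hz) (fun z => Φ0 _) cg ?_
  intro z hz
  have hz : closedBall z r ⊆ Ω := hz
  obtain ⟨v, ρ', hρ', sv, ev1, ev2, ev3⟩ := loc hΩ su he r0 hz
  have nx : ∀ θ, ‖X r θ‖ < ρ' := fun θ => by rw [norm_X, abs_of_pos r0]; exact hρ'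
  have inΩ : ∀ θ, z + X r θ ∈ Ω := fun θ => hz (by
    rw [mem_closedBall, dist_eq_norm, add_sub_cancel_left, norm_X, abs_of_pos r0])
  have cx : Continuous fun θ => z + X r θ :=
    continuous_const.add (X_cont.comp (continuous_const.prodMk continuous_id))
  have cu1 : Continuous fun θ => u (z + X r θ) := su.continuousOn.comp_continuous cx inΩ
  have hJ := jen cΦ cu1.abs
  simp only [ea] at hJ
  refine le_trans ?_ hJ
  refine even_mono cΦ ev ?_
  have hb := B1_low
  have b0 : 0 < B 1 ((92 / 100) ^ 2) := by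
    by_contra h
    push Not at h
    linarith
  have k0 : 0 ≤ ∫ θ, |u (z + X r θ)| ∂cu := integral_nonneg fun θ => abs_nonneg _
  rw [abs_of_nonneg k0, abs_of_nonneg (by positivity), cu_int]
  have dv0 : fderiv ℝ v 0 = fderiv ℝ u z := by
    have := ev3 0 (by rw [norm_zero]; exact r0.trans hρ')
    rw [add_zero] at this
    exact this
  -- each direction
  have dir : ∀ φ, |fderiv ℝ u z (er φ)| * (Real.pi * r * B 1 ((92 / 100) ^ 2)) ≤
      ∫ θ in (-Real.pi)..Real.pi, |u (z + X r θ)| := by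
    intro φ
    have m := mode1 hl (r0.trans hρ') sv ev1 φ (r := r) ⟨r0.le, hρ'.le⟩
    rw [er2, dv0] at m
    have h1 : |∫ θ in (-Real.pi)..Real.pi, v (X r θ) * Real.cos (θ - φ)| ≤
        ∫ θ in (-Real.pi)..Real.pi, |u (z + X r θ)| := by
      refine (intervalIntegral.abs_integral_le_integral_abs (by linarith)).trans ?_
      have ca : Continuous fun θ => |v (X r θ) * Real.cos (θ - φ)| :=
        ((sv.continuous.comp (X_cont.comp (continuous_const.prodMk continuous_id))).mul
          (by fun_prop)).abs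
      refine intervalIntegral.integral_mono_on (by linarith) (ca.intervalIntegrable _ _)
        (cu1.abs.intervalIntegrable _ _) fun θ _ => ?_
      rw [ev2 _ (nx θ), abs_mul]
      exact mul_le_of_le_one_right (abs_nonneg _) (Real.abs_cos_le_one _)
    rw [m, abs_mul, abs_of_pos (by positivity)] at h1
    linarith
  have op : ‖fderiv ℝ u z‖ ≤ (∫ θ in (-Real.pi)..Real.pi, |u (z + X r θ)|) /
      (Real.pi * r * B 1 ((92 / 100) ^ 2)) := by
    refine ContinuousLinearMap.opNorm_le_bound _ (div_nonneg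
      (intervalIntegral.integral_nonneg (by linarith) fun θ _ => abs_nonneg _)
      (by positivity)) fun x => ?_
    have hx : x = (‖x‖ : ℝ) • er (Complex.arg x) := by
      unfold er
      rw [Complex.real_smul]
      have := (Complex.norm_mul_cos_add_sin_mul_I x).symm
      push_cast at this ⊢
      exact this
    have h1 : fderiv ℝ u z x = ‖x‖ * fderiv ℝ u z (er (Complex.arg x)) := by
      conv_lhs => rw [hx]
      rw [map_smul, smul_eq_mul]
    rw [h1, norm_mul, norm_norm, mul_comm, Real.norm_eq_abs]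
    refine mul_le_mul_of_nonneg_right ?_ (norm_nonneg x)
    rw [le_div_iff₀ (by positivity)]
    exact dir _
  rw [le_div_iff₀ (by positivity)] at op
  have h2 : r * √lam = 184 / 100 := by rw [hr]; field_simp
  rw [inv_mul_eq_div, le_div_iff₀ (by positivity)]
  refine le_trans (le_of_eq ?_) (le_trans (mul_le_mul_of_nonneg_left
    (show Real.pi * r * (58 / 100 / (92 / 100)) ≤ Real.pi * r * B 1 ((92 / 100) ^ 2) by
      have : (58 / 100 / (92 / 100) : ℝ) ≤ B 1 ((92 / 100) ^ 2) := by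
        rw [div_le_iff₀ (by norm_num)]
        linarith
      gcongr) (norm_nonneg (fderiv ℝ u z))) op)
  have h3 : r = 184 / 100 / √lam := hr
  rw [h3]
  field_simp
  ring

end

end Pool.Agent.X127.PB
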