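import Pool.Agent.X127.PB.Mx2

/-! # Continuity of the local maximum -/

set_option autoImplicit false
open MeasureTheory Filter Topology Metric
open scoped ContDiff ENNReal

namespace Pool.Agent.X127.PB

noncomputable section

variable {Ω : Set ℂ} {lam : ℝ} {u : ℂ → ℝ}

lemma lmax_cont (hl : 0 < lam) (su : ContDiffOn ℝ ∞ u Ω) :
    ContinuousOn (lmax lam u) {z : ℂ | closedBall z (3 / √lam) ⊆ Ω} := by
  have sl : 0 < √lam := Real.sqrt_pos.2 hl
  have hbb : 1 / √lam ≤ 3 / √lam := by gcongr; norm_num
  rw [continuousOn_iff_continuous_restrict]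
  let f : {z : ℂ | closedBall z (3 / √lam) ⊆ Ω} → closedBall (0 : ℂ) (1 / √lam) → ℝ :=
    fun z y => |u ((z : ℂ) + (y : ℂ))|
  have cp : CompactSpace (closedBall (0 : ℂ) (1 / √lam)) :=
    isCompact_iff_compactSpace.1 (isCompact_closedBall _ _)
  have cf : Continuous (Function.uncurry f) := by
    have h1 : Continuous fun p : {z : ℂ | closedBall z (3 / √lam) ⊆ Ω} ×
        closedBall (0 : ℂ) (1 / √lam) => u ((p.1 : ℂ) + (p.2 : ℂ)) := by
      refine su.continuousOn.comp_continuous
        ((continuous_subtype_val.comp continuous_fst).add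
          (continuous_subtype_val.comp continuous_snd)) fun p => ?_
      refine p.1.2 ?_
      have := p.2.2
      rw [mem_closedBall, dist_zero_right] at this
      rw [mem_closedBall, dist_eq_norm, add_sub_cancel_left]
      exact this.trans hbb
    exact h1.abs
  have h2 := IsCompact.continuous_sSup (f := f)
    (isCompact_univ (X := closedBall (0 : ℂ) (1 / √lam))) cf
  convert h2 using 1
  funext z
  show sSup _ = sSup _
  congr 1
  rw [Set.image_univ, Set.image_eq_range]

end

end Pool.Agent.X127.PB
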