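import Pool.Agent.X127.PB.Mv

/-! # Weak limits of the laws of eigenfunctions of plane domains are quasi-symmetric -/

set_option autoImplicit false
open MeasureTheory Filter Topology Metric
open scoped ContDiff ENNReal

namespace Pool.Agent.X127.PB

open Pool.Agent.X127.SW (conv_cont)

noncomputable section

lemma affine_conv (l : ℝ →L[ℝ] ℝ) (c : ℝ) : ConvexOn ℝ Set.univ fun x => l x + c := by
  refine ⟨convex_univ, fun x _ y _ p q _ _ hpq => ?_⟩
  have : l (p • x + q • y) + c = p • (l x + c) + q • (l y + c) := by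
    rw [map_add, map_smul, map_smul]
    simp only [smul_eq_mul]
    have : p * (l x + c) + q * (l y + c) = p * l x + q * l y + (p + q) * c := by ring
    rw [this, hpq, one_mul]
  exact this.le

/-- approximation by convex functions of linear growth -/
lemma lin_approx {Φ : ℝ → ℝ} (cΦ : ConvexOn ℝ Set.univ Φ) (Φ0 : ∀ x, 0 ≤ Φ x) :
    ∃ g : ℕ → ℝ → ℝ, (∀ m, ConvexOn ℝ Set.univ (g m)) ∧ (∀ m x, 0 ≤ g m x) ∧
      (∀ m, ∃ A B : ℝ, 0 ≤ A ∧ 0 ≤ B ∧ ∀ x, g m x ≤ A + B * |x|) ∧
      (∀ x, Monotone fun m => g m x) ∧ ∀ x, Tendsto (fun m => g m x) atTop (𝓝 (Φ x)) := by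
  obtain ⟨l, c, hle, hsup⟩ := cΦ.real_univ_sSup_of_nat_affine_eq
    (conv_cont cΦ).lowerSemicontinuous
  have le1 : ∀ i x, l i x + c i ≤ Φ x := fun i x => hle i x
  obtain ⟨g, g_zero, g_succ⟩ : ∃ g : ℕ → ℝ → ℝ, (g 0 = fun x => max (l 0 x + c 0) 0) ∧
      ∀ m, g (m + 1) = fun x => max (g m x) (l (m + 1) x + c (m + 1)) :=
    ⟨fun m => Nat.rec (fun x => max (l 0 x + c 0) 0)
      (fun m gm x => max (gm x) (l (m + 1) x + c (m + 1))) m, rfl, fun m => rfl⟩
  have mono : ∀ x, Monotone fun m => g m x := fun x => monotone_nat_of_le_succ fun m => by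
    rw [g_succ]; exact le_max_left _ _
  have g0 : ∀ m x, 0 ≤ g m x := fun m x => by
    have h1 : g 0 x ≤ g m x := mono x (Nat.zero_le m)
    refine le_trans ?_ h1
    rw [g_zero]; exact le_max_right _ _
  have up : ∀ m x, g m x ≤ Φ x := by
    intro m x
    induction m with
    | zero => rw [g_zero]; exact max_le (le1 0 x) (Φ0 x)
    | succ m ih => rw [g_succ]; exact max_le ih (le1 _ x)
  have low : ∀ m x, l m x + c m ≤ g m x := by
    intro m x
    cases m with
    | zero => rw [g_zero]; exact le_max_left _ _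
    | succ m => rw [g_succ]; exact le_max_right _ _
  refine ⟨g, fun m => ?_, g0, fun m => ?_, mono, fun x => ?_⟩
  · induction m with
    | zero => rw [g_zero]; exact (affine_conv _ _).sup (convexOn_const 0 convex_univ)
    | succ m ih => rw [g_succ]; exact ih.sup (affine_conv _ _)
  · have lb : ∀ i x, l i x + c i ≤ |c i| + ‖l i‖ * |x| := by
      intro i x
      have h1 := (le_abs_self (l i x)).trans ((l i).le_opNorm x)
      rw [Real.norm_eq_abs] at h1
      have h2 := le_abs_self (c i)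
      linarith
    induction m with
    | zero =>
      refine ⟨|c 0|, ‖l 0‖, abs_nonneg _, norm_nonneg _, fun x => ?_⟩
      rw [g_zero]
      exact max_le (lb 0 x) (by positivity)
    | succ m ih =>
      obtain ⟨A, B, hA, hB, h⟩ := ih
      refine ⟨A + |c (m + 1)|, B + ‖l (m + 1)‖, by positivity, by positivity, fun x => ?_⟩
      rw [g_succ]
      have h1 := h x
      have h2 := lb (m + 1) x
      have h3 : 0 ≤ B * |x| := by positivity
      have h4 : 0 ≤ ‖l (m + 1)‖ * |x| := by positivity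
      have h5 := abs_nonneg (c (m + 1))
      refine max_le ?_ ?_ <;> nlinarith
  · have bdd : BddAbove (Set.range fun m => g m x) := ⟨Φ x, by rintro _ ⟨m, rfl⟩; exact up m x⟩
    have h1 := tendsto_atTop_ciSup (mono x) bdd
    have h2 : ⨆ m, g m x = Φ x := by
      refine le_antisymm (ciSup_le fun m => up m x) ?_
      refine le_of_forall_lt fun a ha => ?_
      have h3 : Φ x = ⨆ i, (l i x + c i) := by
        have := congrFun hsup x
        rw [iSup_apply] at this
        rw [← this]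
        rfl
      rw [h3] at ha
      obtain ⟨i, hi⟩ := exists_lt_of_lt_ciSup ha
      exact (hi.trans_le (low i x)).trans_le (le_ciSup bdd i)
    rw [h2] at h1
    exact h1

lemma shrink {Ω : Set ℂ} (hΩ : IsOpen Ω) (hfin : volume Ω ≠ ⊤) {ρ : ℕ → ℝ} (ρ0 : ∀ n, 0 < ρ n)
    (hρ : Tendsto ρ atTop (𝓝 0)) :
    Tendsto (fun n => volume (Ω \ {z | closedBall z (ρ n) ⊆ Ω})) atTop (𝓝 0) := by
  have fm : IsFiniteMeasure (volume.restrict Ω) := ⟨by
    rw [Measure.restrict_apply_univ]; exact lt_top_iff_ne_top.2 hfin⟩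
  have ms : ∀ n, MeasurableSet {z : ℂ | closedBall z (ρ n) ⊆ Ω}ᶜ := fun n =>
    (inner_open hΩ (ρ0 n)).measurableSet.compl
  have e : ∀ n, volume (Ω \ {z | closedBall z (ρ n) ⊆ Ω}) =
      ∫⁻ z in Ω, ({z : ℂ | closedBall z (ρ n) ⊆ Ω}ᶜ).indicator (fun _ => (1 : ℝ≥0∞)) z := by
    intro n
    rw [lintegral_indicator (ms n), lintegral_const, one_mul, Measure.restrict_apply_univ,
      Measure.restrict_apply (ms n), Set.diff_eq, Set.inter_comm]
  simp only [e]
  have h := tendsto_lintegral_of_dominated_convergence (μ := volume.restrict Ω)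
    (F := fun n z => ({z : ℂ | closedBall z (ρ n) ⊆ Ω}ᶜ).indicator (fun _ => (1 : ℝ≥0∞)) z)
    (f := fun _ => 0) (bound := fun _ => 1) (fun n => measurable_const.indicator (ms n))
    (fun n => ae_of_all _ fun z =>
      Set.indicator_apply_le' (fun _ => le_rfl) (fun _ => bot_le)) (by
      rw [lintegral_const, one_mul, Measure.restrict_apply_univ]; exact hfin) ?_
  · simpa using h
  · filter_upwards [ae_restrict_mem hΩ.measurableSet] with z hz
    obtain ⟨ε, ε0, hε⟩ := Metric.isOpen_iff.1 hΩ z hz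
    refine tendsto_const_nhds.congr' ?_
    filter_upwards [hρ.eventually_lt_const ε0] with n hn
    rw [Set.indicator_of_notMem]
    intro h
    exact h ((closedBall_subset_ball hn).trans hε)

variable {Ω : Set ℂ} {lam : ℕ → ℝ} {u : ℕ → ℂ → ℝ}

/-- the hypotheses -/
structure Hy (Ω : Set ℂ) (lam : ℕ → ℝ) (u : ℕ → ℂ → ℝ) : Prop where
  op : IsOpen Ω
  fin : volume Ω ≠ ⊤
  pos : 0 < (volume Ω).toReal
  tl : Tendsto lam atTop atTop
  sm : ∀ n, ContDiffOn ℝ ∞ (u n) Ω
  eq : ∀ n, ∀ z ∈ Ω, lp (u n) z + lam n * u n z = 0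
  l2 : ∀ n, IntegrableOn (fun z => u n z ^ 2) Ω volume
  nr : ∀ n, ∫ z in Ω, u n z ^ 2 ≤ (volume Ω).toReal

lemma one_n (H : Hy Ω lam u) (n : ℕ) (hn : 0 < lam n) {Φ : ℝ → ℝ} (cΦ : ConvexOn ℝ Set.univ Φ)
    (Φ0 : ∀ x, 0 ≤ Φ x) {A B : ℝ} (A0 : 0 ≤ A) (B0 : 0 ≤ B) (hAB : ∀ x, Φ x ≤ A + B * |x|)
    {T L : ℝ} (T0 : 0 ≤ T) (L0 : 0 < L) :
    ∫ z in Ω, min (Φ (2 / 5 * u n z)) T ≤
      (∫ z in Ω, min (Φ (-u n z)) (A + B * L)) + B / L * (volume Ω).toReal +
        T * (volume (Ω \ {z | closedBall z (383 / 100 / √(lam n)) ⊆ Ω})).toReal := by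
  have cc := conv_cont cΦ
  obtain ⟨K, hK⟩ : ∃ K : Set ℂ, K = {z | closedBall z (383 / 100 / √(lam n)) ⊆ Ω} := ⟨_, rfl⟩
  have sl : 0 < √(lam n) := Real.sqrt_pos.2 hn
  have mK : MeasurableSet K := by
    rw [hK]; exact (inner_open H.op (by positivity)).measurableSet
  have KΩ : K ⊆ Ω := by
    intro z hz
    rw [hK] at hz
    exact hz (mem_closedBall_self (by positivity))
  have ex := exact H.op hn (H.sm n) (H.eq n) cΦ Φ0
  rw [← hK] at ex ⊢
  have fm : IsFiniteMeasure (volume.restrict Ω) := ⟨by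
    rw [Measure.restrict_apply_univ]; exact lt_top_iff_ne_top.2 H.fin⟩
  have uc := (H.sm n).continuousOn
  have ms : ∀ {k : ℝ → ℝ}, Continuous k → AEStronglyMeasurable (fun z => k (u n z))
      (volume.restrict Ω) := fun hk =>
    (hk.comp_continuousOn uc).aestronglyMeasurable H.op.measurableSet
  have i1 : Integrable (fun z => min (Φ (2 / 5 * u n z)) T) (volume.restrict Ω) := by
    refine Integrable.of_bound (C := T) (ms (k := fun x => min (Φ (2 / 5 * x)) T)
      ((cc.comp (continuous_const.mul continuous_id)).min continuous_const))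
      (ae_of_all _ fun z => ?_)
    rw [Real.norm_eq_abs, abs_of_nonneg (le_min (Φ0 _) T0)]
    exact min_le_right _ _
  have i2 : Integrable (fun z => min (Φ (-u n z)) (A + B * L)) (volume.restrict Ω) := by
    refine Integrable.of_bound (C := A + B * L) (ms (k := fun x => min (Φ (-x)) (A + B * L))
      ((cc.comp continuous_neg).min continuous_const)) (ae_of_all _ fun z => ?_)
    rw [Real.norm_eq_abs, abs_of_nonneg (le_min (Φ0 _) (by positivity))]
    exact min_le_right _ _
  have vK : volume (Ω \ K) ≠ ⊤ := ne_top_of_le_ne_top H.fin (measure_mono Set.diff_subset)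
  have r1 : 0 ≤ ∫ z in Ω, min (Φ (-u n z)) (A + B * L) :=
    integral_nonneg fun z => le_min (Φ0 _) (by positivity)
  have main : ENNReal.ofReal (∫ z in Ω, min (Φ (2 / 5 * u n z)) T) ≤
      ENNReal.ofReal ((∫ z in Ω, min (Φ (-u n z)) (A + B * L)) + B / L * (volume Ω).toReal +
        T * (volume (Ω \ K)).toReal) := by
    rw [ofReal_integral_eq_lintegral_ofReal i1 (ae_of_all _ fun z => le_min (Φ0 _) T0)]
    have s1 : ∫⁻ z in Ω, ENNReal.ofReal (min (Φ (2 / 5 * u n z)) T) ≤
        (∫⁻ z in K, ENNReal.ofReal (Φ (2 / 5 * u n z))) + ENNReal.ofReal T * volume (Ω \ K) := by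
      have e : Ω = K ∪ (Ω \ K) := (Set.union_diff_cancel KΩ).symm
      conv_lhs => rw [e]
      refine (lintegral_union_le _ _ _).trans (add_le_add ?_ ?_)
      · exact lintegral_mono fun z => ENNReal.ofReal_le_ofReal (min_le_left _ _)
      · calc ∫⁻ z in Ω \ K, ENNReal.ofReal (min (Φ (2 / 5 * u n z)) T) ≤
            ∫⁻ _ in Ω \ K, ENNReal.ofReal T :=
              lintegral_mono fun z => ENNReal.ofReal_le_ofReal (min_le_right _ _)
          _ = ENNReal.ofReal T * volume (Ω \ K) := by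
              rw [lintegral_const, Measure.restrict_apply_univ]
    have s2 : ∫⁻ z in Ω, ENNReal.ofReal (Φ (-u n z)) ≤
        ENNReal.ofReal (∫ z in Ω, min (Φ (-u n z)) (A + B * L)) +
          ENNReal.ofReal (B / L * (volume Ω).toReal) := by
      have pt : ∀ x : ℝ, Φ (-x) ≤ min (Φ (-x)) (A + B * L) + B / L * x ^ 2 := by
        intro x
        rcases le_total (Φ (-x)) (A + B * L) with h | h
        · rw [min_eq_left h]
          have : 0 ≤ B / L * x ^ 2 := by positivity
          linarith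
        · rw [min_eq_right h]
          have h1 := hAB (-x)
          rw [abs_neg] at h1
          have h2 : |x| - L ≤ x ^ 2 / L := by
            rw [le_div_iff₀ L0, ← sq_abs x]
            nlinarith [sq_nonneg (|x| - L), abs_nonneg x]
          have h3 : B * (|x| - L) ≤ B * (x ^ 2 / L) := mul_le_mul_of_nonneg_left h2 B0
          calc Φ (-x) ≤ A + B * |x| := h1
            _ = A + B * L + B * (|x| - L) := by ring
            _ ≤ A + B * L + B * (x ^ 2 / L) := by linarith
            _ = A + B * L + B / L * x ^ 2 := by ring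
      have i3 : Integrable (fun z => B / L * u n z ^ 2) (volume.restrict Ω) :=
        (H.l2 n).const_mul _
      calc ∫⁻ z in Ω, ENNReal.ofReal (Φ (-u n z)) ≤
          ∫⁻ z in Ω, ENNReal.ofReal (min (Φ (-u n z)) (A + B * L) + B / L * u n z ^ 2) :=
            lintegral_mono fun z => ENNReal.ofReal_le_ofReal (pt _)
        _ = ENNReal.ofReal (∫ z in Ω, (min (Φ (-u n z)) (A + B * L) + B / L * u n z ^ 2)) :=
            (ofReal_integral_eq_lintegral_ofReal (i2.add i3) (ae_of_all _ fun z =>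
              add_nonneg (le_min (Φ0 _) (by positivity)) (by positivity))).symm
        _ = ENNReal.ofReal ((∫ z in Ω, min (Φ (-u n z)) (A + B * L)) +
            B / L * ∫ z in Ω, u n z ^ 2) := by
            rw [integral_add i2 i3, integral_const_mul]
        _ ≤ ENNReal.ofReal ((∫ z in Ω, min (Φ (-u n z)) (A + B * L)) +
            B / L * (volume Ω).toReal) := by
            refine ENNReal.ofReal_le_ofReal ?_
            have := mul_le_mul_of_nonneg_left (H.nr n) (by positivity : 0 ≤ B / L)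
            linarith
        _ = _ := ENNReal.ofReal_add r1 (by positivity)
    refine s1.trans ((add_le_add (ex.trans s2) le_rfl).trans (le_of_eq ?_))
    rw [ENNReal.ofReal_add (by positivity) (by positivity), ENNReal.ofReal_add r1 (by positivity),
      ENNReal.ofReal_mul T0, ENNReal.ofReal_toReal vK]
  exact (ENNReal.ofReal_le_ofReal_iff (by positivity)).1 main

/-- linear growth -/
lemma lim_lin (H : Hy Ω lam u) {ν : Measure ℝ} [IsProbabilityMeasure ν] {σ : ℕ → ℕ}
    (hσ : StrictMono σ)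
    (hw : ∀ g : ℝ → ℝ, Continuous g → (∃ M, ∀ x, |g x| ≤ M) →
      Tendsto (fun n => (∫ z in Ω, g (u (σ n) z)) / (volume Ω).toReal) atTop (𝓝 (∫ x, g x ∂ν)))
    {Φ : ℝ → ℝ} (cΦ : ConvexOn ℝ Set.univ Φ)
    (Φ0 : ∀ x, 0 ≤ Φ x) {A B : ℝ} (A0 : 0 ≤ A) (B0 : 0 ≤ B) (hAB : ∀ x, Φ x ≤ A + B * |x|) :
    ∫⁻ x, ENNReal.ofReal (Φ (2 / 5 * x)) ∂ν ≤ ∫⁻ x, ENNReal.ofReal (Φ (-x)) ∂ν := by
  have cc := conv_cont cΦ
  have V0 := H.pos
  have step : ∀ T L : ℝ, 0 ≤ T → 0 < L → ∫ x, min (Φ (2 / 5 * x)) T ∂ν ≤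
      (∫ x, min (Φ (-x)) (A + B * L) ∂ν) + B / L := by
    intro T L T0 L0
    have t1 := hw (fun x => min (Φ (2 / 5 * x)) T)
      ((cc.comp (continuous_const.mul continuous_id)).min continuous_const)
      ⟨T, fun x => by rw [abs_of_nonneg (le_min (Φ0 _) T0)]; exact min_le_right _ _⟩
    have t2 := hw (fun x => min (Φ (-x)) (A + B * L))
      ((cc.comp continuous_neg).min continuous_const)
      ⟨A + B * L, fun x => by
        rw [abs_of_nonneg (le_min (Φ0 _) (by positivity))]; exact min_le_right _ _⟩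
    have lσ : Tendsto (fun n => lam (σ n)) atTop atTop := H.tl.comp hσ.tendsto_atTop
    obtain ⟨ρ, hρ⟩ : ∃ ρ : ℕ → ℝ, ρ = fun n => 383 / 100 / √(max (lam (σ n)) 1) := ⟨_, rfl⟩
    have ρ0 : ∀ n, 0 < ρ n := fun n => by
      rw [hρ]
      have : 0 < √(max (lam (σ n)) 1) := Real.sqrt_pos.2 (lt_max_of_lt_right one_pos)
      positivity
    have ρl : Tendsto ρ atTop (𝓝 0) := by
      rw [hρ]
      refine Tendsto.div_atTop tendsto_const_nhds (Real.tendsto_sqrt_atTop.comp ?_)
      exact tendsto_atTop_mono (fun n => le_max_left _ _) lσ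
    have sh := shrink H.op H.fin ρ0 ρl
    have sh2 : Tendsto (fun n => (volume (Ω \ {z | closedBall z (ρ n) ⊆ Ω})).toReal) atTop
        (𝓝 0) := by
      have := (ENNReal.tendsto_toReal ENNReal.zero_ne_top).comp sh
      rw [ENNReal.toReal_zero] at this
      exact this
    have t3 : Tendsto (fun n => (∫ z in Ω, min (Φ (-u (σ n) z)) (A + B * L)) /
        (volume Ω).toReal + B / L +
        T * (volume (Ω \ {z | closedBall z (ρ n) ⊆ Ω})).toReal / (volume Ω).toReal) atTop
        (𝓝 ((∫ x, min (Φ (-x)) (A + B * L) ∂ν) + B / L + T * 0 / (volume Ω).toReal)) :=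
      (t2.add_const _).add ((sh2.const_mul T).div_const _)
    rw [mul_zero, zero_div, add_zero] at t3
    refine le_of_tendsto_of_tendsto t1 t3 ?_
    filter_upwards [lσ.eventually_ge_atTop 1] with n hn
    have h1 := one_n H (σ n) (by linarith) cΦ Φ0 A0 B0 hAB T0 L0
    have e : ρ n = 383 / 100 / √(lam (σ n)) := by
      rw [hρ]
      show 383 / 100 / √(max (lam (σ n)) 1) = _
      rw [max_eq_left hn]
    rw [e, div_le_iff₀ V0]
    refine h1.trans (le_of_eq ?_)
    field_simp
  obtain ⟨R, hR⟩ : ∃ R, R = ∫⁻ x, ENNReal.ofReal (Φ (-x)) ∂ν := ⟨_, rfl⟩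
  rw [← hR]
  have ib : ∀ {k : ℝ → ℝ} {C : ℝ}, Continuous k → (∀ x, 0 ≤ k x) → (∀ x, k x ≤ C) →
      Integrable k ν := fun hk h0 hC => Integrable.of_bound hk.aestronglyMeasurable _
    (ae_of_all _ fun x => by rw [Real.norm_eq_abs, abs_of_nonneg (h0 x)]; exact hC x)
  have step2 : ∀ T : ℝ, 0 ≤ T → ∫⁻ x, ENNReal.ofReal (min (Φ (2 / 5 * x)) T) ∂ν ≤ R := by
    intro T T0
    have i1 : Integrable (fun x => min (Φ (2 / 5 * x)) T) ν :=
      ib ((cc.comp (continuous_const.mul continuous_id)).min continuous_const)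
        (fun x => le_min (Φ0 _) T0) fun x => min_le_right _ _
    rw [← ofReal_integral_eq_lintegral_ofReal i1 (ae_of_all _ fun x => le_min (Φ0 _) T0)]
    have b : ∀ L : ℝ, 0 < L → ENNReal.ofReal (∫ x, min (Φ (2 / 5 * x)) T ∂ν) ≤
        R + ENNReal.ofReal (B / L) := by
      intro L L0
      have i2 : Integrable (fun x => min (Φ (-x)) (A + B * L)) ν :=
        ib ((cc.comp continuous_neg).min continuous_const)
          (fun x => le_min (Φ0 _) (by positivity)) fun x => min_le_right _ _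
      refine (ENNReal.ofReal_le_ofReal (step T L T0 L0)).trans
        (ENNReal.ofReal_add_le.trans (add_le_add ?_ le_rfl))
      rw [ofReal_integral_eq_lintegral_ofReal i2
        (ae_of_all _ fun x => le_min (Φ0 _) (by positivity)), hR]
      exact lintegral_mono fun x => ENNReal.ofReal_le_ofReal (min_le_left _ _)
    have tl : Tendsto (fun L : ℝ => R + ENNReal.ofReal (B / L)) atTop (𝓝 (R + 0)) := by
      refine Tendsto.const_add R ?_
      have : Tendsto (fun L : ℝ => B / L) atTop (𝓝 0) :=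
        tendsto_const_nhds.div_atTop tendsto_id
      have h2 := ENNReal.tendsto_ofReal this
      rw [ENNReal.ofReal_zero] at h2
      exact h2
    rw [add_zero] at tl
    refine ge_of_tendsto tl ?_
    filter_upwards [eventually_gt_atTop 0] with L L0 using b L L0
  have mc : ∀ n : ℕ, Measurable fun x : ℝ => ENNReal.ofReal (min (Φ (2 / 5 * x)) n) := fun n =>
    ((cc.comp (continuous_const.mul continuous_id)).min continuous_const).measurable.ennreal_ofReal
  have t := lintegral_tendsto_of_tendsto_of_monotone (μ := ν)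
    (f := fun (n : ℕ) x => ENNReal.ofReal (min (Φ (2 / 5 * x)) n))
    (F := fun x => ENNReal.ofReal (Φ (2 / 5 * x))) (fun n => (mc n).aemeasurable)
    (ae_of_all _ fun x m n hmn => ENNReal.ofReal_le_ofReal
      (min_le_min le_rfl (by exact_mod_cast hmn)))
    (ae_of_all _ fun x => by
      refine tendsto_const_nhds.congr' ?_
      obtain ⟨N, hN⟩ := exists_nat_ge (Φ (2 / 5 * x))
      filter_upwards [eventually_ge_atTop N] with n hn
      rw [min_eq_left (hN.trans (by exact_mod_cast hn))])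
  exact le_of_tendsto' t fun n => step2 n n.cast_nonneg

/-- **weak limits are quasi-symmetric** -/
theorem lim (H : Hy Ω lam u) {ν : Measure ℝ} [IsProbabilityMeasure ν] {σ : ℕ → ℕ}
    (hσ : StrictMono σ)
    (hw : ∀ g : ℝ → ℝ, Continuous g → (∃ M, ∀ x, |g x| ≤ M) →
      Tendsto (fun n => (∫ z in Ω, g (u (σ n) z)) / (volume Ω).toReal) atTop (𝓝 (∫ x, g x ∂ν)))
    {Φ : ℝ → ℝ} (cΦ : ConvexOn ℝ Set.univ Φ) (Φ0 : ∀ x, 0 ≤ Φ x) :
    ∫⁻ x, ENNReal.ofReal (Φ (2 / 5 * x)) ∂ν ≤ ∫⁻ x, ENNReal.ofReal (Φ (-x)) ∂ν := by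
  obtain ⟨g, gc, g0, gl, gm, gt⟩ := lin_approx cΦ Φ0
  have up : ∀ m x, g m x ≤ Φ x := fun m x => (gm x).ge_of_tendsto (gt x) m
  have t := lintegral_tendsto_of_tendsto_of_monotone (μ := ν)
    (f := fun (n : ℕ) x => ENNReal.ofReal (g n (2 / 5 * x)))
    (F := fun x => ENNReal.ofReal (Φ (2 / 5 * x)))
    (fun n => ((conv_cont (gc n)).comp
      (continuous_const.mul continuous_id)).measurable.ennreal_ofReal.aemeasurable)
    (ae_of_all _ fun x m n hmn => ENNReal.ofReal_le_ofReal (gm _ hmn))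
    (ae_of_all _ fun x => ENNReal.tendsto_ofReal (gt _))
  refine le_of_tendsto' t fun n => ?_
  obtain ⟨A, B, A0, B0, hAB⟩ := gl n
  refine (lim_lin H hσ hw (gc n) (g0 n) A0 B0 hAB).trans ?_
  exact lintegral_mono fun x => ENNReal.ofReal_le_ofReal (up _ _)

end

end Pool.Agent.X127.PB
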