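import Pool.Agent.X127.PB.Lim
import Pool.Agent.X127.PB.Gr2

/-! # Inequalities in law pass to weak limits (abstract form) -/

set_option autoImplicit false
open MeasureTheory Filter Topology
open scoped ENNReal

namespace Pool.Agent.X127.PB

open Pool.Agent.X127.SW (conv_cont)

noncomputable section

variable {Z : Type*} [MeasurableSpace Z] {m : Measure Z} [IsFiniteMeasure m]
  {a b : ℕ → Z → ℝ} {K : ℕ → Set Z} {c M : ℝ}

/-- the hypotheses -/
structure Ab (m : Measure Z) (a b : ℕ → Z → ℝ) (K : ℕ → Set Z) (M : ℝ) : Prop where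
  pos : 0 < (m Set.univ).toReal
  ma : ∀ n, AEStronglyMeasurable (a n) m
  mb : ∀ n, AEStronglyMeasurable (b n) m
  l2 : ∀ᶠ n in atTop, Integrable (fun z => b n z ^ 2) m
  nr : ∀ᶠ n in atTop, ∫ z, b n z ^ 2 ∂m ≤ M * (m Set.univ).toReal
  mK : ∀ n, MeasurableSet (K n)
  sh : Tendsto (fun n => m (K n)ᶜ) atTop (𝓝 0)

omit [IsFiniteMeasure m] in
lemma ab_one [IsFiniteMeasure m] {n : ℕ} (ma : AEStronglyMeasurable (a n) m)
    (mb : AEStronglyMeasurable (b n) m) (l2 : Integrable (fun z => b n z ^ 2) m)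
    (nr : ∫ z, b n z ^ 2 ∂m ≤ M * (m Set.univ).toReal) (mK : MeasurableSet (K n))
    {Φ : ℝ → ℝ} (cΦ : ConvexOn ℝ Set.univ Φ)
    (Φ0 : ∀ x, 0 ≤ Φ x)
    (ex : ∫⁻ z in K n, ENNReal.ofReal (Φ (c * a n z)) ∂m ≤ ∫⁻ z, ENNReal.ofReal (Φ (b n z)) ∂m)
    {A B : ℝ} (A0 : 0 ≤ A) (B0 : 0 ≤ B) (hAB : ∀ x, Φ x ≤ A + B * |x|)
    {T L : ℝ} (T0 : 0 ≤ T) (L0 : 0 < L) (M0 : 0 ≤ M) :
    ∫ z, min (Φ (c * a n z)) T ∂m ≤
      (∫ z, min (Φ (b n z)) (A + B * L) ∂m) + B / L * (M * (m Set.univ).toReal) +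
        T * (m (K n)ᶜ).toReal := by
  have cc := conv_cont cΦ
  have ms : ∀ {k : ℝ → ℝ} {f : Z → ℝ}, Continuous k → AEStronglyMeasurable f m →
      AEStronglyMeasurable (fun z => k (f z)) m := fun hk hf => hk.comp_aestronglyMeasurable hf
  have i1 : Integrable (fun z => min (Φ (c * a n z)) T) m := by
    refine Integrable.of_bound (C := T) (ms (k := fun x => min (Φ (c * x)) T)
      ((cc.comp (continuous_const.mul continuous_id)).min continuous_const) ma)
      (ae_of_all _ fun z => ?_)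
    rw [Real.norm_eq_abs, abs_of_nonneg (le_min (Φ0 _) T0)]
    exact min_le_right _ _
  have i2 : Integrable (fun z => min (Φ (b n z)) (A + B * L)) m := by
    refine Integrable.of_bound (C := A + B * L) (ms (k := fun x => min (Φ x) (A + B * L))
      (cc.min continuous_const) mb) (ae_of_all _ fun z => ?_)
    rw [Real.norm_eq_abs, abs_of_nonneg (le_min (Φ0 _) (by positivity))]
    exact min_le_right _ _
  have vK : m (K n)ᶜ ≠ ⊤ := measure_ne_top _ _
  have r1 : 0 ≤ ∫ z, min (Φ (b n z)) (A + B * L) ∂m :=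
    integral_nonneg fun z => le_min (Φ0 _) (by positivity)
  have main : ENNReal.ofReal (∫ z, min (Φ (c * a n z)) T ∂m) ≤
      ENNReal.ofReal ((∫ z, min (Φ (b n z)) (A + B * L) ∂m) + B / L * (M * (m Set.univ).toReal) +
        T * (m (K n)ᶜ).toReal) := by
    rw [ofReal_integral_eq_lintegral_ofReal i1 (ae_of_all _ fun z => le_min (Φ0 _) T0)]
    have s1 : ∫⁻ z, ENNReal.ofReal (min (Φ (c * a n z)) T) ∂m ≤
        (∫⁻ z in K n, ENNReal.ofReal (Φ (c * a n z)) ∂m) + ENNReal.ofReal T * m (K n)ᶜ := by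
      rw [← lintegral_add_compl _ mK]
      refine add_le_add ?_ ?_
      · exact lintegral_mono fun z => ENNReal.ofReal_le_ofReal (min_le_left _ _)
      · calc ∫⁻ z in (K n)ᶜ, ENNReal.ofReal (min (Φ (c * a n z)) T) ∂m ≤
            ∫⁻ _ in (K n)ᶜ, ENNReal.ofReal T ∂m :=
              lintegral_mono fun z => ENNReal.ofReal_le_ofReal (min_le_right _ _)
          _ = ENNReal.ofReal T * m (K n)ᶜ := by
              rw [lintegral_const, Measure.restrict_apply_univ]
    have s2 : ∫⁻ z, ENNReal.ofReal (Φ (b n z)) ∂m ≤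
        ENNReal.ofReal (∫ z, min (Φ (b n z)) (A + B * L) ∂m) +
          ENNReal.ofReal (B / L * (M * (m Set.univ).toReal)) := by
      have pt : ∀ x : ℝ, Φ x ≤ min (Φ x) (A + B * L) + B / L * x ^ 2 := by
        intro x
        rcases le_total (Φ x) (A + B * L) with h | h
        · rw [min_eq_left h]
          have : 0 ≤ B / L * x ^ 2 := by positivity
          linarith
        · rw [min_eq_right h]
          have h1 := hAB x
          have h2 : |x| - L ≤ x ^ 2 / L := by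
            rw [le_div_iff₀ L0, ← sq_abs x]
            nlinarith [sq_nonneg (|x| - L), abs_nonneg x]
          have h3 : B * (|x| - L) ≤ B * (x ^ 2 / L) := mul_le_mul_of_nonneg_left h2 B0
          calc Φ x ≤ A + B * |x| := h1
            _ = A + B * L + B * (|x| - L) := by ring
            _ ≤ A + B * L + B * (x ^ 2 / L) := by linarith
            _ = A + B * L + B / L * x ^ 2 := by ring
      have i3 : Integrable (fun z => B / L * b n z ^ 2) m := l2.const_mul _
      calc ∫⁻ z, ENNReal.ofReal (Φ (b n z)) ∂m ≤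
          ∫⁻ z, ENNReal.ofReal (min (Φ (b n z)) (A + B * L) + B / L * b n z ^ 2) ∂m :=
            lintegral_mono fun z => ENNReal.ofReal_le_ofReal (pt _)
        _ = ENNReal.ofReal (∫ z, (min (Φ (b n z)) (A + B * L) + B / L * b n z ^ 2) ∂m) :=
            (ofReal_integral_eq_lintegral_ofReal (i2.add i3) (ae_of_all _ fun z =>
              add_nonneg (le_min (Φ0 _) (by positivity)) (by positivity))).symm
        _ = ENNReal.ofReal ((∫ z, min (Φ (b n z)) (A + B * L) ∂m) +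
            B / L * ∫ z, b n z ^ 2 ∂m) := by
            rw [integral_add i2 i3, integral_const_mul]
        _ ≤ ENNReal.ofReal ((∫ z, min (Φ (b n z)) (A + B * L) ∂m) +
            B / L * (M * (m Set.univ).toReal)) := by
            refine ENNReal.ofReal_le_ofReal ?_
            have := mul_le_mul_of_nonneg_left nr (by positivity : 0 ≤ B / L)
            linarith
        _ = _ := ENNReal.ofReal_add r1 (by positivity)
    refine s1.trans ((add_le_add (ex.trans s2) le_rfl).trans (le_of_eq ?_))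
    rw [ENNReal.ofReal_add (by positivity) (by positivity), ENNReal.ofReal_add r1 (by positivity),
      ENNReal.ofReal_mul T0, ENNReal.ofReal_toReal vK]
  exact (ENNReal.ofReal_le_ofReal_iff (by positivity)).1 main

/-- linear growth -/
lemma ab_lin (H : Ab m a b K M) (M0 : 0 ≤ M) {μ ν : Measure ℝ} [IsProbabilityMeasure μ]
    [IsProbabilityMeasure ν]
    (ha : ∀ g : ℝ → ℝ, Continuous g → (∃ M, ∀ x, |g x| ≤ M) →
      Tendsto (fun n => (∫ z, g (a n z) ∂m) / (m Set.univ).toReal) atTop (𝓝 (∫ x, g x ∂μ)))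
    (hb : ∀ g : ℝ → ℝ, Continuous g → (∃ M, ∀ x, |g x| ≤ M) →
      Tendsto (fun n => (∫ z, g (b n z) ∂m) / (m Set.univ).toReal) atTop (𝓝 (∫ x, g x ∂ν)))
    {Φ : ℝ → ℝ} (cΦ : ConvexOn ℝ Set.univ Φ)
    (Φ0 : ∀ x, 0 ≤ Φ x)
    (ex : ∀ᶠ n in atTop, ∫⁻ z in K n, ENNReal.ofReal (Φ (c * a n z)) ∂m ≤
      ∫⁻ z, ENNReal.ofReal (Φ (b n z)) ∂m)
    {A B : ℝ} (A0 : 0 ≤ A) (B0 : 0 ≤ B) (hAB : ∀ x, Φ x ≤ A + B * |x|) :
    ∫⁻ x, ENNReal.ofReal (Φ (c * x)) ∂μ ≤ ∫⁻ x, ENNReal.ofReal (Φ x) ∂ν := by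
  have cc := conv_cont cΦ
  have V0 := H.pos
  have step : ∀ T L : ℝ, 0 ≤ T → 0 < L → ∫ x, min (Φ (c * x)) T ∂μ ≤
      (∫ x, min (Φ x) (A + B * L) ∂ν) + B / L * M := by
    intro T L T0 L0
    have t1 := ha (fun x => min (Φ (c * x)) T)
      ((cc.comp (continuous_const.mul continuous_id)).min continuous_const)
      ⟨T, fun x => by rw [abs_of_nonneg (le_min (Φ0 _) T0)]; exact min_le_right _ _⟩
    have t2 := hb (fun x => min (Φ x) (A + B * L))
      (cc.min continuous_const)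
      ⟨A + B * L, fun x => by
        rw [abs_of_nonneg (le_min (Φ0 _) (by positivity))]; exact min_le_right _ _⟩
    have sh2 : Tendsto (fun n => (m (K n)ᶜ).toReal) atTop (𝓝 0) := by
      have := (ENNReal.tendsto_toReal ENNReal.zero_ne_top).comp H.sh
      rw [ENNReal.toReal_zero] at this
      exact this
    have t3 : Tendsto (fun n => (∫ z, min (Φ (b n z)) (A + B * L) ∂m) /
        (m Set.univ).toReal + B / L * M +
        T * (m (K n)ᶜ).toReal / (m Set.univ).toReal) atTop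
        (𝓝 ((∫ x, min (Φ x) (A + B * L) ∂ν) + B / L * M + T * 0 / (m Set.univ).toReal)) :=
      (t2.add_const _).add ((sh2.const_mul T).div_const _)
    rw [mul_zero, zero_div, add_zero] at t3
    refine le_of_tendsto_of_tendsto t1 t3 ?_
    filter_upwards [H.l2, H.nr, ex] with n h1 h2 h3
    have h4 := ab_one (H.ma n) (H.mb n) h1 h2 (H.mK n) cΦ Φ0 h3 A0 B0 hAB T0 L0 M0
    rw [div_le_iff₀ V0]
    refine h4.trans (le_of_eq ?_)
    field_simp
  obtain ⟨R, hR⟩ : ∃ R, R = ∫⁻ x, ENNReal.ofReal (Φ x) ∂ν := ⟨_, rfl⟩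
  rw [← hR]
  have step2 : ∀ T : ℝ, 0 ≤ T → ∫⁻ x, ENNReal.ofReal (min (Φ (c * x)) T) ∂μ ≤ R := by
    intro T T0
    have i1 : Integrable (fun x => min (Φ (c * x)) T) μ :=
      Integrable.of_bound ((cc.comp (continuous_const.mul continuous_id)).min
        continuous_const).aestronglyMeasurable T (ae_of_all _ fun x => by
          rw [Real.norm_eq_abs, abs_of_nonneg (le_min (Φ0 _) T0)]; exact min_le_right _ _)
    rw [← ofReal_integral_eq_lintegral_ofReal i1 (ae_of_all _ fun x => le_min (Φ0 _) T0)]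
    have b : ∀ L : ℝ, 0 < L → ENNReal.ofReal (∫ x, min (Φ (c * x)) T ∂μ) ≤
        R + ENNReal.ofReal (B / L * M) := by
      intro L L0
      have i2 : Integrable (fun x => min (Φ x) (A + B * L)) ν :=
        Integrable.of_bound (cc.min continuous_const).aestronglyMeasurable (A + B * L)
          (ae_of_all _ fun x => by
            rw [Real.norm_eq_abs, abs_of_nonneg (le_min (Φ0 _) (by positivity))]
            exact min_le_right _ _)
      refine (ENNReal.ofReal_le_ofReal (step T L T0 L0)).trans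
        (ENNReal.ofReal_add_le.trans (add_le_add ?_ le_rfl))
      rw [ofReal_integral_eq_lintegral_ofReal i2
        (ae_of_all _ fun x => le_min (Φ0 _) (by positivity)), hR]
      exact lintegral_mono fun x => ENNReal.ofReal_le_ofReal (min_le_left _ _)
    have tl : Tendsto (fun L : ℝ => R + ENNReal.ofReal (B / L * M)) atTop (𝓝 (R + 0)) := by
      refine Tendsto.const_add R ?_
      have : Tendsto (fun L : ℝ => B / L * M) atTop (𝓝 (0 * M)) :=
        (tendsto_const_nhds.div_atTop tendsto_id).mul_const M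
      rw [zero_mul] at this
      have h2 := ENNReal.tendsto_ofReal this
      rw [ENNReal.ofReal_zero] at h2
      exact h2
    rw [add_zero] at tl
    refine ge_of_tendsto tl ?_
    filter_upwards [eventually_gt_atTop 0] with L L0 using b L L0
  have mc : ∀ n : ℕ, Measurable fun x : ℝ => ENNReal.ofReal (min (Φ (c * x)) n) := fun n =>
    ((cc.comp (continuous_const.mul continuous_id)).min continuous_const).measurable.ennreal_ofReal
  have t := lintegral_tendsto_of_tendsto_of_monotone (μ := μ)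
    (f := fun (n : ℕ) x => ENNReal.ofReal (min (Φ (c * x)) n))
    (F := fun x => ENNReal.ofReal (Φ (c * x))) (fun n => (mc n).aemeasurable)
    (ae_of_all _ fun x m n hmn => ENNReal.ofReal_le_ofReal
      (min_le_min le_rfl (by exact_mod_cast hmn)))
    (ae_of_all _ fun x => by
      refine tendsto_const_nhds.congr' ?_
      obtain ⟨N, hN⟩ := exists_nat_ge (Φ (c * x))
      filter_upwards [eventually_ge_atTop N] with n hn
      rw [min_eq_left (hN.trans (by exact_mod_cast hn))])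
  exact le_of_tendsto' t fun n => step2 n n.cast_nonneg

/-- **all convex functions** -/
theorem ab_lim (H : Ab m a b K M) (M0 : 0 ≤ M) {μ ν : Measure ℝ} [IsProbabilityMeasure μ]
    [IsProbabilityMeasure ν]
    (ha : ∀ g : ℝ → ℝ, Continuous g → (∃ M, ∀ x, |g x| ≤ M) →
      Tendsto (fun n => (∫ z, g (a n z) ∂m) / (m Set.univ).toReal) atTop (𝓝 (∫ x, g x ∂μ)))
    (hb : ∀ g : ℝ → ℝ, Continuous g → (∃ M, ∀ x, |g x| ≤ M) →
      Tendsto (fun n => (∫ z, g (b n z) ∂m) / (m Set.univ).toReal) atTop (𝓝 (∫ x, g x ∂ν)))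
    (ex : ∀ Φ : ℝ → ℝ, ConvexOn ℝ Set.univ Φ → (∀ x, 0 ≤ Φ x) → ∀ᶠ n in atTop,
      ∫⁻ z in K n, ENNReal.ofReal (Φ (c * a n z)) ∂m ≤ ∫⁻ z, ENNReal.ofReal (Φ (b n z)) ∂m)
    {Φ : ℝ → ℝ} (cΦ : ConvexOn ℝ Set.univ Φ) (Φ0 : ∀ x, 0 ≤ Φ x) :
    ∫⁻ x, ENNReal.ofReal (Φ (c * x)) ∂μ ≤ ∫⁻ x, ENNReal.ofReal (Φ x) ∂ν := by
  obtain ⟨g, gc, g0, gl, gm, gt⟩ := lin_approx cΦ Φ0
  have up : ∀ m x, g m x ≤ Φ x := fun m x => (gm x).ge_of_tendsto (gt x) m
  have t := lintegral_tendsto_of_tendsto_of_monotone (μ := μ)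
    (f := fun (n : ℕ) x => ENNReal.ofReal (g n (c * x)))
    (F := fun x => ENNReal.ofReal (Φ (c * x)))
    (fun n => ((conv_cont (gc n)).comp
      (continuous_const.mul continuous_id)).measurable.ennreal_ofReal.aemeasurable)
    (ae_of_all _ fun x m n hmn => ENNReal.ofReal_le_ofReal (gm _ hmn))
    (ae_of_all _ fun x => ENNReal.tendsto_ofReal (gt _))
  refine le_of_tendsto' t fun n => ?_
  obtain ⟨A, B, A0, B0, hAB⟩ := gl n
  refine (ab_lin H M0 ha hb (gc n) (g0 n) (ex _ (gc n) (g0 n)) A0 B0 hAB).trans ?_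
  exact lintegral_mono fun x => ENNReal.ofReal_le_ofReal (up _ _)

/-- **even convex functions** -/
theorem ab_even (H : Ab m a b K M) (M0 : 0 ≤ M) {μ ν : Measure ℝ} [IsProbabilityMeasure μ]
    [IsProbabilityMeasure ν]
    (ha : ∀ g : ℝ → ℝ, Continuous g → (∃ M, ∀ x, |g x| ≤ M) →
      Tendsto (fun n => (∫ z, g (a n z) ∂m) / (m Set.univ).toReal) atTop (𝓝 (∫ x, g x ∂μ)))
    (hb : ∀ g : ℝ → ℝ, Continuous g → (∃ M, ∀ x, |g x| ≤ M) →
      Tendsto (fun n => (∫ z, g (b n z) ∂m) / (m Set.univ).toReal) atTop (𝓝 (∫ x, g x ∂ν)))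
    (ex : ∀ Φ : ℝ → ℝ, ConvexOn ℝ Set.univ Φ → (∀ x, Φ (-x) = Φ x) → (∀ x, 0 ≤ Φ x) →
      ∀ᶠ n in atTop,
      ∫⁻ z in K n, ENNReal.ofReal (Φ (c * a n z)) ∂m ≤ ∫⁻ z, ENNReal.ofReal (Φ (b n z)) ∂m)
    {Φ : ℝ → ℝ} (cΦ : ConvexOn ℝ Set.univ Φ) (he : ∀ x, Φ (-x) = Φ x) (Φ0 : ∀ x, 0 ≤ Φ x) :
    ∫⁻ x, ENNReal.ofReal (Φ (c * x)) ∂μ ≤ ∫⁻ x, ENNReal.ofReal (Φ x) ∂ν := by
  obtain ⟨g', gc', g0', gl', gm', gt'⟩ := lin_approx cΦ Φ0
  obtain ⟨g, hg⟩ : ∃ g : ℕ → ℝ → ℝ, g = fun m x => max (g' m x) (g' m (-x)) := ⟨_, rfl⟩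
  have gc : ∀ m, ConvexOn ℝ Set.univ (g m) := by
    intro m
    rw [hg]
    refine (gc' m).sup ?_
    refine ⟨convex_univ, fun x _ y _ p q hp hq hpq => ?_⟩
    have := (gc' m).2 (Set.mem_univ (-x)) (Set.mem_univ (-y)) hp hq hpq
    simp only [smul_eq_mul] at this ⊢
    rw [show -(p * x + q * y) = p * -x + q * -y by ring]
    exact this
  have g0 : ∀ m x, 0 ≤ g m x := fun m x => by
    rw [hg]; exact (g0' m x).trans (le_max_left _ _)
  have gev : ∀ m x, g m (-x) = g m x := fun m x => by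
    rw [hg]; simp only [neg_neg]; exact max_comm _ _
  have gl : ∀ m, ∃ A B : ℝ, 0 ≤ A ∧ 0 ≤ B ∧ ∀ x, g m x ≤ A + B * |x| := by
    intro m
    obtain ⟨A, B, A0, B0, h⟩ := gl' m
    refine ⟨A, B, A0, B0, fun x => ?_⟩
    rw [hg]
    refine max_le (h x) ?_
    have := h (-x)
    rwa [abs_neg] at this
  have gm : ∀ x, Monotone fun m => g m x := by
    intro x i j hij
    rw [hg]
    exact max_le_max (gm' x hij) (gm' (-x) hij)
  have gt : ∀ x, Tendsto (fun m => g m x) atTop (𝓝 (Φ x)) := by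
    intro x
    have := (gt' x).max (gt' (-x))
    rw [he, max_self] at this
    rw [hg]
    exact this
  have up : ∀ m x, g m x ≤ Φ x := fun m x => (gm x).ge_of_tendsto (gt x) m
  have t := lintegral_tendsto_of_tendsto_of_monotone (μ := μ)
    (f := fun (n : ℕ) x => ENNReal.ofReal (g n (c * x)))
    (F := fun x => ENNReal.ofReal (Φ (c * x)))
    (fun n => ((conv_cont (gc n)).comp
      (continuous_const.mul continuous_id)).measurable.ennreal_ofReal.aemeasurable)
    (ae_of_all _ fun x m n hmn => ENNReal.ofReal_le_ofReal (gm _ hmn))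
    (ae_of_all _ fun x => ENNReal.tendsto_ofReal (gt _))
  refine le_of_tendsto' t fun n => ?_
  obtain ⟨A, B, A0, B0, hAB⟩ := gl n
  refine (ab_lin H M0 ha hb (gc n) (g0 n) (ex _ (gc n) (gev n) (g0 n)) A0 B0 hAB).trans ?_
  exact lintegral_mono fun x => ENNReal.ofReal_le_ofReal (up _ _)

end

end Pool.Agent.X127.PB
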