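import Pool.Agent.X127.PB.Mv

/-! # Circle averages of the gradient -/

set_option autoImplicit false
open MeasureTheory Filter Topology Metric
open scoped ContDiff ENNReal

namespace Pool.Agent.X127.PB

open Pool.Agent.TH298.Sch (X er norm_X X_cont dd X_dr)
open Pool.Agent.TH298.AN (mc odem)
open TH259.NS (B B_cont B_zero B_deriv bt bt_summable)
open Pool.Agent.X127.SW (conv_cont)

noncomputable section

lemma B_abs (m : ℕ) {s : ℝ} (hs : |s| ≤ 1) : |B m s| ≤ Real.exp 1 / m.factorial := by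
  have h1 : ∀ k, |bt m k s| ≤ |s| ^ k / (k.factorial : ℝ) * (1 / m.factorial) := by
    intro k
    unfold bt
    rw [abs_div, abs_mul, abs_pow, abs_neg, abs_one, one_pow, one_mul, abs_pow]
    rw [abs_of_pos (show (0 : ℝ) < (k.factorial : ℝ) * ((k + m).factorial : ℝ) by positivity)]
    rw [div_mul_div_comm, mul_one]
    apply div_le_div_of_nonneg_left (by positivity) (by positivity)
    have : (m.factorial : ℝ) ≤ ((k + m).factorial : ℝ) := by
      exact_mod_cast Nat.factorial_le (by omega)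
    gcongr
  have h2 : Summable fun k => |s| ^ k / (k.factorial : ℝ) * (1 / m.factorial) :=
    (Real.summable_pow_div_factorial |s|).mul_right _
  have h3 : ‖∑' k, bt m k s‖ ≤ ∑' k, |s| ^ k / (k.factorial : ℝ) * (1 / m.factorial) :=
    tsum_of_norm_bounded h2.hasSum fun k => by rw [Real.norm_eq_abs]; exact h1 k
  rw [Real.norm_eq_abs, tsum_mul_right] at h3
  have h4 : ∑' k : ℕ, |s| ^ k / (k.factorial : ℝ) = Real.exp |s| := by
    rw [Real.exp_eq_exp_ℝ, NormedSpace.exp_eq_tsum_div]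
  rw [h4, mul_one_div] at h3
  refine h3.trans ?_
  gcongr

lemma up {f f' : ℝ → ℝ} {s : ℝ} (hs : 0 ≤ s) (h : ∀ x ∈ Set.Icc 0 s, HasDerivAt f (f' x) x)
    (h0 : ∀ x ∈ Set.Icc 0 s, 0 ≤ f' x) : f 0 ≤ f s := by
  have : MonotoneOn f (Set.Icc 0 s) :=
    monotoneOn_of_hasDerivWithinAt_nonneg (convex_Icc 0 s)
      (fun x hx => (h x hx).continuousAt.continuousWithinAt)
      (fun x hx => (h x (interior_subset hx)).hasDerivWithinAt)
      (fun x hx => h0 x (interior_subset hx))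
  exact this ⟨le_rfl, hs⟩ ⟨hs, le_rfl⟩ hs

lemma B1_low : (58 / 100 : ℝ) ≤ 92 / 100 * B 1 ((92 / 100) ^ 2) := by
  have e0 := Real.exp_pos 1
  have e1 := Real.exp_one_lt_d9
  have b5 : ∀ s ∈ Set.Icc (0 : ℝ) 1, -(Real.exp 1 / 120) ≤ B 5 s := by
    intro s hs
    have h := B_abs 5 (s := s) (by rw [abs_of_nonneg hs.1]; exact hs.2)
    have : ((Nat.factorial 5 : ℕ) : ℝ) = 120 := by norm_num [Nat.factorial]
    rw [this] at h
    exact (abs_le.1 h).1
  have b4 : ∀ s ∈ Set.Icc (0 : ℝ) 1, B 4 s ≤ 1 / 24 + Real.exp 1 / 120 * s := by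
    intro s hs
    have h := up (f := fun x => 1 / 24 + Real.exp 1 / 120 * x - B 4 x)
      (f' := fun x => Real.exp 1 / 120 + B 5 x) hs.1 (fun x _ => by
        have := (((hasDerivAt_id x).const_mul (Real.exp 1 / 120)).const_add (1 / 24)).sub
          (B_deriv 4 x)
        refine this.congr_deriv ?_
        ring) (fun x hx => by
        have := b5 x ⟨hx.1, hx.2.trans hs.2⟩
        linarith)
    have z : B 4 0 = 1 / 24 := by rw [B_zero]; norm_num [Nat.factorial]
    simp only [z] at h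
    linarith
  have b3 : ∀ s ∈ Set.Icc (0 : ℝ) 1, 1 / 6 - s / 24 - Real.exp 1 / 240 * s ^ 2 ≤ B 3 s := by
    intro s hs
    have h := up (f := fun x => B 3 x - (1 / 6 - x / 24 - Real.exp 1 / 240 * x ^ 2))
      (f' := fun x => 1 / 24 + Real.exp 1 / 120 * x - B 4 x) hs.1 (fun x _ => by
        have := (B_deriv 3 x).sub ((((hasDerivAt_id x).div_const 24).const_sub (1 / 6)).sub
          (((hasDerivAt_id x).pow 2).const_mul (Real.exp 1 / 240)))
        refine this.congr_deriv ?_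
        simp only [id_eq]
        push_cast
        ring) (fun x hx => by
        have := b4 x ⟨hx.1, hx.2.trans hs.2⟩
        linarith)
    have z : B 3 0 = 1 / 6 := by rw [B_zero]; norm_num [Nat.factorial]
    simp only [z] at h
    linarith
  have b2 : ∀ s ∈ Set.Icc (0 : ℝ) 1,
      B 2 s ≤ 1 / 2 - s / 6 + s ^ 2 / 48 + Real.exp 1 / 720 * s ^ 3 := by
    intro s hs
    have h := up (f := fun x => 1 / 2 - x / 6 + x ^ 2 / 48 + Real.exp 1 / 720 * x ^ 3 - B 2 x)
      (f' := fun x => B 3 x - (1 / 6 - x / 24 - Real.exp 1 / 240 * x ^ 2)) hs.1 (fun x _ => by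
        have := (((((hasDerivAt_id x).div_const 6).const_sub (1 / 2)).add
          (((hasDerivAt_id x).pow 2).div_const 48)).add
          (((hasDerivAt_id x).pow 3).const_mul (Real.exp 1 / 720))).sub (B_deriv 2 x)
        refine this.congr_deriv ?_
        simp only [id_eq]
        push_cast
        ring) (fun x hx => by
        have := b3 x ⟨hx.1, hx.2.trans hs.2⟩
        linarith)
    have z : B 2 0 = 1 / 2 := by rw [B_zero]; norm_num [Nat.factorial]
    simp only [z] at h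
    linarith
  have b1 : ∀ s ∈ Set.Icc (0 : ℝ) 1,
      1 - s / 2 + s ^ 2 / 12 - s ^ 3 / 144 - Real.exp 1 / 2880 * s ^ 4 ≤ B 1 s := by
    intro s hs
    have h := up (f := fun x => B 1 x -
        (1 - x / 2 + x ^ 2 / 12 - x ^ 3 / 144 - Real.exp 1 / 2880 * x ^ 4))
      (f' := fun x => 1 / 2 - x / 6 + x ^ 2 / 48 + Real.exp 1 / 720 * x ^ 3 - B 2 x)
      hs.1 (fun x _ => by
        have := (B_deriv 1 x).sub ((((((hasDerivAt_id x).div_const 2).const_sub 1).add
          (((hasDerivAt_id x).pow 2).div_const 12)).sub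
          (((hasDerivAt_id x).pow 3).div_const 144)).sub
          (((hasDerivAt_id x).pow 4).const_mul (Real.exp 1 / 2880)))
        refine this.congr_deriv ?_
        simp only [id_eq]
        push_cast
        ring) (fun x hx => by
        have := b2 x ⟨hx.1, hx.2.trans hs.2⟩
        linarith)
    have z : B 1 0 = 1 := by rw [B_zero]; norm_num [Nat.factorial]
    simp only [z] at h
    linarith
  have h := b1 ((92 / 100) ^ 2) ⟨by norm_num, by norm_num⟩
  have h2 : Real.exp 1 / 2880 * (((92 : ℝ) / 100) ^ 2) ^ 4 ≤ 28 / 10 / 2880 * ((92 / 100) ^ 2) ^ 4 := by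
    gcongr
    linarith
  have h3 : (632 / 1000 - 2 / 1000 : ℝ) ≤ 1 - (92 / 100 : ℝ) ^ 2 / 2 + ((92 / 100) ^ 2) ^ 2 / 12 -
      ((92 / 100) ^ 2) ^ 3 / 144 - 28 / 10 / 2880 * ((92 / 100) ^ 2) ^ 4 := by norm_num
  have h4 : (58 / 100 / (92 / 100) : ℝ) ≤ 1 - (92 / 100 : ℝ) ^ 2 / 2 + ((92 / 100) ^ 2) ^ 2 / 12 -
      ((92 / 100) ^ 2) ^ 3 / 144 - 28 / 10 / 2880 * ((92 / 100) ^ 2) ^ 4 := by norm_num
  have h5 : (58 / 100 / (92 / 100) : ℝ) ≤ B 1 ((92 / 100) ^ 2) := by linarith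
  calc (58 / 100 : ℝ) = 92 / 100 * (58 / 100 / (92 / 100)) := by norm_num
    _ ≤ _ := by gcongr

/-- localisation -/
lemma loc {Ω : Set ℂ} (hΩ : IsOpen Ω) {lam : ℝ} {u : ℂ → ℝ}
    (su : ContDiffOn ℝ ∞ u Ω) (he : ∀ z ∈ Ω, lp u z + lam * u z = 0) {z : ℂ} {ρ : ℝ} (hρ : 0 < ρ)
    (hz : closedBall z ρ ⊆ Ω) : ∃ (v : ℂ → ℝ) (ρ' : ℝ), ρ < ρ' ∧ ContDiff ℝ ∞ v ∧
      (∀ x : ℂ, ‖x‖ < ρ' → lp v x = -(lam * v x)) ∧ (∀ x : ℂ, ‖x‖ < ρ' → v x = u (z + x)) ∧
      ∀ x : ℂ, ‖x‖ < ρ' → fderiv ℝ v x = fderiv ℝ u (z + x) := by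
  obtain ⟨δ, hδ, hs⟩ := (isCompact_closedBall z ρ).exists_cthickening_subset_open hΩ hz
  rw [cthickening_closedBall hδ.le hρ.le] at hs
  let b : ContDiffBump (0 : ℂ) := ⟨ρ + δ / 2, ρ + δ, by linarith, by linarith⟩
  have b1 : ∀ x : ℂ, ‖x‖ ≤ ρ + δ / 2 → b x = 1 := fun x hx =>
    b.one_of_mem_closedBall (by simpa using hx)
  have b0 : ∀ x : ℂ, ρ + δ ≤ ‖x‖ → b x = 0 := fun x hx =>
    b.zero_of_le_dist (by simpa using hx)
  obtain ⟨v, hv⟩ : ∃ v : ℂ → ℝ, v = fun x => b x * u (z + x) := ⟨_, rfl⟩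
  have mem : ∀ x : ℂ, ‖x‖ ≤ ρ + δ → z + x ∈ Ω := fun x hx => hs (by
    rw [mem_closedBall, dist_eq_norm, add_sub_cancel_left]; linarith)
  have uat : ∀ w ∈ Ω, ContDiffAt ℝ ∞ u w := fun w hw => su.contDiffAt (hΩ.mem_nhds hw)
  have sv : ContDiff ℝ ∞ v := by
    rw [contDiff_iff_contDiffAt]
    intro x
    by_cases hx : ‖x‖ ≤ ρ + δ
    · have h1 : ContDiffAt ℝ ∞ (fun x => u (z + x)) x :=
        (uat _ (mem x hx)).comp x (contDiffAt_const.add contDiffAt_id)
      rw [hv]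
      exact (b.contDiff.contDiffAt).mul h1
    · push Not at hx
      have : v =ᶠ[𝓝 x] fun _ => 0 := by
        have : {y : ℂ | ρ + δ < ‖y‖} ∈ 𝓝 x := (isOpen_lt continuous_const continuous_norm).mem_nhds hx
        filter_upwards [this] with y hy
        rw [hv]
        show b y * u (z + y) = 0
        rw [b0 y (le_of_lt hy), zero_mul]
      exact contDiffAt_const.congr_of_eventuallyEq this
  have ne : ∀ x : ℂ, ‖x‖ < ρ + δ / 2 → v =ᶠ[𝓝 x] fun y => u (z + y) := by
    intro x hx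
    have nb : {y : ℂ | ‖y‖ < ρ + δ / 2} ∈ 𝓝 x :=
      (isOpen_lt continuous_norm continuous_const).mem_nhds (by
        show ‖x‖ < ρ + δ / 2
        linarith)
    filter_upwards [nb] with y hy
    rw [hv]
    show b y * u (z + y) = u (z + y)
    rw [b1 y (le_of_lt hy), one_mul]
  refine ⟨v, ρ + δ / 2, by linarith, sv, ?_, fun x hx => (ne x hx).self_of_nhds, ?_⟩
  · intro x hx
    have e1 := ne x hx
    have e2 : ∀ h : ℂ, (fun w => fderiv ℝ v w h) =ᶠ[𝓝 x] fun y => fderiv ℝ u (z + y) h := by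
      intro h
      filter_upwards [e1.fderiv (𝕜 := ℝ)] with y hy
      rw [hy, fderiv_comp_add_left]
    have e3 : ∀ h : ℂ, fderiv ℝ (fun w => fderiv ℝ v w h) x h =
        fderiv ℝ (fun w => fderiv ℝ u w h) (z + x) h := by
      intro h
      rw [(e2 h).fderiv_eq]
      rw [fderiv_comp_add_left (f := fun w => fderiv ℝ u w h)]
    have e4 : lp v x = lp u (z + x) := by
      unfold lp
      rw [e3, e3]
    have e5 : v x = u (z + x) := e1.self_of_nhds
    rw [e4, e5]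
    have := he (z + x) (mem x (by linarith))
    linarith
  · intro x hx
    rw [(ne x hx).fderiv_eq, fderiv_comp_add_left]

lemma er_cont' : Continuous er := by unfold er; fun_prop

lemma nrm_er (θ : ℝ) : ‖er θ‖ = 1 := by
  have : er θ = X 1 θ := by unfold er X; push_cast; ring
  rw [this, norm_X, abs_one]

lemma pd {v : ℂ → ℝ} (hv : ContDiff ℝ ∞ v) {w : ℝ → ℝ} (hw : Continuous w) (r : ℝ) :
    HasDerivAt (fun r => ∫ θ in (-Real.pi)..Real.pi, v (X r θ) * w θ)
      (∫ θ in (-Real.pi)..Real.pi, fderiv ℝ v (X r θ) (er θ) * w θ) r := by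
  have hd1 : ContDiff ℝ ∞ (fderiv ℝ v) := hv.fderiv_right (by simp)
  have hv1 : ∀ x, HasFDerivAt v (fderiv ℝ v x) x := fun x =>
    (hv.differentiable (by simp) x).hasFDerivAt
  exact Pool.Agent.TH298.Sch.Coer2.param_deriv (V := fun r θ => v (X r θ))
      (D := fun r θ => fderiv ℝ v (X r θ) (er θ)) (hv.continuous.comp X_cont)
      ((hd1.continuous.comp X_cont).clm_apply (er_cont'.comp continuous_snd))
      (fun r θ => (hv1 (X r θ)).comp_hasDerivAt r (X_dr r θ)) hw r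

/-- the flux through circles -/
lemma flux {lam : ℝ} (hl : 0 < lam) {v : ℂ → ℝ} {a : ℝ} (ha : 0 < a) (sv : ContDiff ℝ ∞ v)
    (he : ∀ x : ℂ, ‖x‖ < a → lp v x = -(lam * v x)) {r : ℝ} (hr : r ∈ Set.Ioo 0 a) :
    ∫ θ in (-Real.pi)..Real.pi, fderiv ℝ v (X r θ) (er θ) =
      -(Real.pi * lam * r * B 1 (lam * r ^ 2 / 4)) * v 0 := by
  have d1 := pd sv (w := fun _ => 1) continuous_const r
  simp only [mul_one] at d1
  have d2 : HasDerivAt (fun r : ℝ => 2 * Real.pi * B 0 (lam * r ^ 2 / 4) * v 0)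
      (2 * Real.pi * (-B 1 (lam * r ^ 2 / 4) * (lam * r / 2)) * v 0) r := by
    have h1 : HasDerivAt (fun r : ℝ => lam * r ^ 2 / 4) (lam * r / 2) r := by
      refine (((hasDerivAt_pow 2 r).const_mul lam).div_const 4).congr_deriv ?_
      push_cast
      ring
    have h2 := (B_deriv 0 (lam * r ^ 2 / 4)).comp r h1
    exact (h2.const_mul (2 * Real.pi)).mul_const (v 0)
  have e : (fun r => ∫ θ in (-Real.pi)..Real.pi, v (X r θ)) =ᶠ[𝓝 r]
      fun r : ℝ => 2 * Real.pi * B 0 (lam * r ^ 2 / 4) * v 0 := by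
    filter_upwards [Ioo_mem_nhds hr.1 hr.2] with s hs
    exact mode0 hl ha sv he ⟨hs.1.le, hs.2.le⟩
  have := (d2.congr_of_eventuallyEq e).unique d1
  rw [← this]
  ring

lemma tri_int (a b φ : ℝ) : ∫ θ in (-Real.pi)..Real.pi,
    (a * Real.cos θ + b * Real.sin θ) * Real.cos (θ - φ) =
      Real.pi * (a * Real.cos φ + b * Real.sin φ) := by
  have e : ∀ θ, (a * Real.cos θ + b * Real.sin θ) * Real.cos (θ - φ) =
      a * Real.cos φ * Real.cos θ ^ 2 + b * Real.sin φ * Real.sin θ ^ 2 +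
        (a * Real.sin φ + b * Real.cos φ) * (Real.sin θ * Real.cos θ) := by
    intro θ
    rw [Real.cos_sub]
    ring
  simp only [e]
  have c1 : Continuous fun θ : ℝ => a * Real.cos φ * Real.cos θ ^ 2 := by fun_prop
  have c2 : Continuous fun θ : ℝ => b * Real.sin φ * Real.sin θ ^ 2 := by fun_prop
  have c3 : Continuous fun θ : ℝ => (a * Real.sin φ + b * Real.cos φ) *
    (Real.sin θ * Real.cos θ) := by fun_prop
  have c4 : Continuous fun θ : ℝ => a * Real.cos φ * Real.cos θ ^ 2 +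
    b * Real.sin φ * Real.sin θ ^ 2 := by fun_prop
  rw [intervalIntegral.integral_add (c4.intervalIntegrable _ _)
    (c3.intervalIntegrable _ _), intervalIntegral.integral_add (c1.intervalIntegrable _ _)
    (c2.intervalIntegrable _ _), intervalIntegral.integral_const_mul,
    intervalIntegral.integral_const_mul, intervalIntegral.integral_const_mul,
    integral_cos_sq, integral_sin_sq, integral_sin_mul_cos₁]
  simp
  ring

/-- the first mode on circles -/
lemma mode1 {lam : ℝ} (hl : 0 < lam) {v : ℂ → ℝ} {a : ℝ} (ha : 0 < a) (sv : ContDiff ℝ ∞ v)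
    (he : ∀ x : ℂ, ‖x‖ < a → lp v x = -(lam * v x)) (φ : ℝ) {r : ℝ} (hr : r ∈ Set.Icc 0 a) :
    ∫ θ in (-Real.pi)..Real.pi, v (X r θ) * Real.cos (θ - φ) =
      Real.pi * r * B 1 (lam * r ^ 2 / 4) * fderiv ℝ v 0 (er φ) := by
  obtain ⟨α, hα⟩ := Pool.Agent.TH298.AN.ODEM.mode ha hl sv he 1
    (w := fun θ => Real.cos (θ - φ)) (w1 := fun θ => -Real.sin (θ - φ))
    (fun θ => by
      have := ((hasDerivAt_id θ).sub_const φ).cos
      refine this.congr_deriv ?_
      simp)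
    (fun θ => by
      have := ((hasDerivAt_id θ).sub_const φ).sin.neg
      refine this.congr_deriv ?_
      simp)
    (by
      show Real.cos (Real.pi - φ) = Real.cos (-Real.pi - φ)
      rw [show -Real.pi - φ = (Real.pi - φ) - 2 * Real.pi by ring, Real.cos_sub_two_pi])
    (by
      show -Real.sin (Real.pi - φ) = -Real.sin (-Real.pi - φ)
      rw [show -Real.pi - φ = (Real.pi - φ) - 2 * Real.pi by ring, Real.sin_sub_two_pi])
  have cw : Continuous fun θ : ℝ => Real.cos (θ - φ) := by fun_prop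
  have d1 := (pd sv cw 0).hasDerivWithinAt (s := Set.Ici 0)
  have d2 : HasDerivWithinAt (fun r : ℝ => α * r ^ 1 * B 1 (lam * r ^ 2 / 4)) α (Set.Ici 0) 0 := by
    have h1 : HasDerivAt (fun r : ℝ => lam * r ^ 2 / 4) (lam * 0 / 2) 0 := by
      refine (((hasDerivAt_pow 2 (0 : ℝ)).const_mul lam).div_const 4).congr_deriv ?_
      push_cast
      ring
    have h2 := (B_deriv 1 (lam * 0 ^ 2 / 4)).comp (0 : ℝ) h1
    have h3 := (((hasDerivAt_id (0 : ℝ)).pow 1).const_mul α).mul h2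
    have h4 : HasDerivAt (fun r : ℝ => α * r ^ 1 * B 1 (lam * r ^ 2 / 4)) α 0 := by
      refine h3.congr_deriv ?_
      simp [B_zero]
    exact h4.hasDerivWithinAt
  have e : (fun r => ∫ θ in (-Real.pi)..Real.pi, v (X r θ) * Real.cos (θ - φ)) =ᶠ[𝓝[Set.Ici 0] 0]
      fun r : ℝ => α * r ^ 1 * B 1 (lam * r ^ 2 / 4) := by
    filter_upwards [Icc_mem_nhdsGE ha] with s hs
    exact hα s hs
  have u1 := (uniqueDiffOn_Ici (0 : ℝ) 0 Set.self_mem_Ici)
  have key := u1.eq_deriv _ (d2.congr_of_eventuallyEq e (hα 0 ⟨le_rfl, ha.le⟩)) d1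
  have e0 : ∫ θ in (-Real.pi)..Real.pi, fderiv ℝ v (X 0 θ) (er θ) * Real.cos (θ - φ) =
      Real.pi * fderiv ℝ v 0 (er φ) := by
    have er_e : ∀ θ, er θ = (Real.cos θ) • (1 : ℂ) + (Real.sin θ) • Complex.I := by
      intro θ
      unfold er
      simp [Complex.real_smul]
    have h1 : ∀ θ, fderiv ℝ v 0 (er θ) = fderiv ℝ v 0 1 * Real.cos θ +
        fderiv ℝ v 0 Complex.I * Real.sin θ := by
      intro θ
      rw [er_e, map_add, map_smul, map_smul]
      simp only [smul_eq_mul]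
      ring
    have h2 : ∀ θ, X 0 θ = 0 := fun θ => by rw [← norm_eq_zero, norm_X, abs_zero]
    simp only [h2, h1]
    exact tri_int _ _ φ
  rw [e0] at key
  rw [hα r hr, key]
  ring

end

end Pool.Agent.X127.PB
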