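import Pool.Agent.TH298.AN.ODEM
import Pool.Agent.X127.SW.QS

/-! # The mean value property of solutions of the Helmholtz equation in plane domains -/

set_option autoImplicit false
open MeasureTheory Filter Topology Metric
open scoped ContDiff ENNReal

namespace Pool.Agent.X127.PB

open Pool.Agent.TH298.Sch (X er norm_X X_cont dd)
open Pool.Agent.TH298.AN (mc odem)
open TH259.NS (B B_cont B_zero)
open Pool.Agent.X127.SW (bessel ui ui_int ui_cont)

noncomputable section

/-- Laplacian -/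
def lp (f : ℂ → ℝ) (z : ℂ) : ℝ :=
  fderiv ℝ (fun w => fderiv ℝ f w 1) z 1 + fderiv ℝ (fun w => fderiv ℝ f w Complex.I) z Complex.I

lemma mode0 {lam : ℝ} (hl : 0 < lam) {v : ℂ → ℝ} {a : ℝ} (ha : 0 < a) (sv : ContDiff ℝ ∞ v)
    (he : ∀ x : ℂ, ‖x‖ < a → lp v x = -(lam * v x)) {r : ℝ} (hr : r ∈ Set.Icc 0 a) :
    ∫ θ in (-Real.pi)..Real.pi, v (X r θ) = 2 * Real.pi * B 0 (lam * r ^ 2 / 4) * v 0 := by
  obtain ⟨⟨α, hα⟩, -⟩ := odem a lam v ha hl sv he 0
  have m : ∀ s, mc v 0 s = ∫ θ in (-Real.pi)..Real.pi, v (X s θ) := by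
    intro s
    unfold mc
    simp
  have h0 := hα 0 ⟨le_rfl, ha.le⟩
  have h1 := hα r hr
  rw [m] at h0 h1
  have e0 : ∫ θ in (-Real.pi)..Real.pi, v (X 0 θ) = 2 * Real.pi * v 0 := by
    have : ∀ θ, v (X 0 θ) = v 0 := fun θ => by
      have : X 0 θ = 0 := by
        rw [← norm_eq_zero, norm_X, abs_zero]
      rw [this]
    simp only [this, intervalIntegral.integral_const, smul_eq_mul]
    ring
  rw [e0] at h0
  rw [pow_zero, mul_one] at h0 h1
  have b0 : B 0 (lam * 0 ^ 2 / 4) = 1 := by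
    rw [show lam * (0 : ℝ) ^ 2 / 4 = 0 by ring, B_zero]
    simp
  rw [b0, mul_one] at h0
  rw [h1, ← h0]
  ring

lemma lp_wave (x : ℂ) : lp (fun z : ℂ => Real.cos z.im) x = -(1 * Real.cos x.im) := by
  have h1 : ∀ w : ℂ, HasFDerivAt (fun z : ℂ => Real.cos z.im) (-Real.sin w.im • Complex.imCLM) w :=
    fun w => (Complex.imCLM.hasFDerivAt (x := w)).cos
  have e1 : (fun w => fderiv ℝ (fun z : ℂ => Real.cos z.im) w 1) = fun _ => 0 := by
    funext w
    rw [(h1 w).fderiv]
    simp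
  have e2 : (fun w => fderiv ℝ (fun z : ℂ => Real.cos z.im) w Complex.I) =
      fun w => -Real.sin w.im := by
    funext w
    rw [(h1 w).fderiv]
    simp
  have h2 : HasFDerivAt (fun z : ℂ => -Real.sin z.im) (-(Real.cos x.im • Complex.imCLM)) x :=
    ((Complex.imCLM.hasFDerivAt (x := x)).sin).fun_neg
  unfold lp
  rw [e1, e2, h2.fderiv]
  simp

lemma B_int (s : ℝ) : ∫ θ in (-Real.pi)..Real.pi, Real.cos (s * Real.sin θ) =
    2 * Real.pi * B 0 (s ^ 2 / 4) := by
  have key : ∀ s : ℝ, 0 ≤ s → ∫ θ in (-Real.pi)..Real.pi, Real.cos (s * Real.sin θ) =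
      2 * Real.pi * B 0 (s ^ 2 / 4) := by
    intro s hs
    have h := mode0 (lam := 1) one_pos (v := fun z : ℂ => Real.cos z.im) (a := s + 1)
      (by linarith) (Real.contDiff_cos.comp Complex.imCLM.contDiff) (fun x _ => lp_wave x)
      (r := s) ⟨hs, by linarith⟩
    simp only [Complex.zero_im, Real.cos_zero, mul_one, one_mul] at h
    rw [← h]
    refine intervalIntegral.integral_congr fun θ _ => ?_
    show Real.cos (s * Real.sin θ) = Real.cos (X s θ).im
    congr 1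
    unfold X
    rw [Complex.im_ofReal_mul]
    simp [-Complex.ofReal_sin, -Complex.ofReal_cos]
  rcases le_total 0 s with h | h
  · exact key s h
  · have := key (-s) (by linarith)
    rw [neg_sq] at this
    rw [← this]
    refine intervalIntegral.integral_congr fun θ _ => ?_
    show Real.cos (s * Real.sin θ) = Real.cos (-s * Real.sin θ)
    rw [neg_mul, Real.cos_neg]

lemma exists_rad : ∃ s : ℝ, 0 < s ∧ s ≤ 383 / 100 ∧ B 0 (s ^ 2 / 4) = -(2 / 5) := by
  have pp := Real.pi_pos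
  have c : ContinuousOn (fun s : ℝ => B 0 (s ^ 2 / 4)) (Set.Icc 0 (383 / 100)) :=
    ((B_cont 0).comp (by fun_prop)).continuousOn
  have v0 : B 0 ((0 : ℝ) ^ 2 / 4) = 1 := by
    rw [show (0 : ℝ) ^ 2 / 4 = 0 by ring, B_zero]; simp
  have v1 : B 0 ((383 / 100 : ℝ) ^ 2 / 4) ≤ -(2 / 5) := by
    have h1 := B_int (383 / 100)
    have h2 : ∫ θ in (-Real.pi)..Real.pi, Real.cos (383 / 100 * Real.sin θ) =
        2 * ∫ θ in (0 : ℝ)..Real.pi, Real.cos (383 / 100 * Real.sin θ) := by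
      have hc : Continuous fun θ : ℝ => Real.cos (383 / 100 * Real.sin θ) := by fun_prop
      rw [← intervalIntegral.integral_add_adjacent_intervals (b := 0)
        (hc.intervalIntegrable _ _) (hc.intervalIntegrable _ _)]
      have e : ∫ θ in (-Real.pi)..0, Real.cos (383 / 100 * Real.sin θ) =
          ∫ θ in (0 : ℝ)..Real.pi, Real.cos (383 / 100 * Real.sin θ) := by
        have := intervalIntegral.integral_comp_neg
          (f := fun θ : ℝ => Real.cos (383 / 100 * Real.sin θ)) (a := 0) (b := Real.pi)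
        rw [neg_zero] at this
        rw [← this]
        refine intervalIntegral.integral_congr fun θ _ => ?_
        show Real.cos (383 / 100 * Real.sin (-θ)) = _
        rw [Real.sin_neg, mul_neg, Real.cos_neg]
      rw [e]; ring
    rw [h2] at h1
    have h3 := bessel
    have h4 : 2 * Real.pi * B 0 ((383 / 100 : ℝ) ^ 2 / 4) ≤ 2 * (-(2 / 5) * Real.pi) := by
      rw [← h1]; linarith
    by_contra hc
    push Not at hc
    nlinarith
  obtain ⟨s, hs, he⟩ := intermediate_value_Icc' (by norm_num) c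
    (show -(2 / 5 : ℝ) ∈ Set.Icc (B 0 ((383 / 100 : ℝ) ^ 2 / 4)) (B 0 ((0 : ℝ) ^ 2 / 4)) from
      ⟨v1, by rw [v0]; norm_num⟩)
  have he : B 0 (s ^ 2 / 4) = -(2 / 5) := he
  refine ⟨s, ?_, hs.2, he⟩
  rcases hs.1.eq_or_lt with h | h
  · rw [← h, v0] at he
    norm_num at he
  · exact h

/-- **the mean value property** -/
theorem mvp {Ω : Set ℂ} (hΩ : IsOpen Ω) {lam : ℝ} (hl : 0 < lam) {u : ℂ → ℝ}
    (su : ContDiffOn ℝ ∞ u Ω) (he : ∀ z ∈ Ω, lp u z + lam * u z = 0) {z : ℂ} {ρ : ℝ} (hρ : 0 < ρ)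
    (hz : closedBall z ρ ⊆ Ω) {r : ℝ} (hr : r ∈ Set.Icc 0 ρ) :
    ∫ θ in (-Real.pi)..Real.pi, u (z + X r θ) = 2 * Real.pi * B 0 (lam * r ^ 2 / 4) * u z := by
  obtain ⟨δ, hδ, hs⟩ := (isCompact_closedBall z ρ).exists_cthickening_subset_open hΩ hz
  rw [cthickening_closedBall hδ.le hρ.le] at hs
  let b : ContDiffBump (0 : ℂ) := ⟨ρ + δ / 2, ρ + δ, by linarith, by linarith⟩
  have b1 : ∀ x : ℂ, ‖x‖ ≤ ρ + δ / 2 → b x = 1 := fun x hx =>
    b.one_of_mem_closedBall (by simpa using hx)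
  have b0 : ∀ x : ℂ, ρ + δ ≤ ‖x‖ → b x = 0 := fun x hx =>
    b.zero_of_le_dist (by simpa using hx)
  obtain ⟨v, hv⟩ : ∃ v : ℂ → ℝ, v = fun x => b x * u (z + x) := ⟨_, rfl⟩
  have mem : ∀ x : ℂ, ‖x‖ ≤ ρ + δ → z + x ∈ Ω := fun x hx => hs (by
    rw [mem_closedBall, dist_eq_norm, add_sub_cancel_left]; linarith)
  have uat : ∀ w ∈ Ω, ContDiffAt ℝ ∞ u w := fun w hw => su.contDiffAt (hΩ.mem_nhds hw)
  have sv : ContDiff ℝ ∞ v := by
    rw [contDiff_iff_contDiffAt]
    intro x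
    by_cases hx : ‖x‖ ≤ ρ + δ
    · have h1 : ContDiffAt ℝ ∞ (fun x => u (z + x)) x :=
        (uat _ (mem x hx)).comp x (contDiffAt_const.add contDiffAt_id)
      rw [hv]
      exact (b.contDiff.contDiffAt).mul h1
    · push Not at hx
      have : v =ᶠ[𝓝 x] fun _ => 0 := by
        have : {y : ℂ | ρ + δ < ‖y‖} ∈ 𝓝 x := (isOpen_lt continuous_const continuous_norm).mem_nhds hx
        filter_upwards [this] with y hy
        rw [hv]
        show b y * u (z + y) = 0
        rw [b0 y (le_of_lt hy), zero_mul]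
      exact contDiffAt_const.congr_of_eventuallyEq this
  have ev : ∀ x : ℂ, ‖x‖ < ρ → lp v x = -(lam * v x) := by
    intro x hx
    have nb : {y : ℂ | ‖y‖ < ρ + δ / 2} ∈ 𝓝 x :=
      (isOpen_lt continuous_norm continuous_const).mem_nhds (by
        show ‖x‖ < ρ + δ / 2
        linarith)
    have e1 : v =ᶠ[𝓝 x] fun y => u (z + y) := by
      filter_upwards [nb] with y hy
      rw [hv]
      show b y * u (z + y) = u (z + y)
      rw [b1 y (le_of_lt hy), one_mul]
    have e2 : ∀ h : ℂ, (fun w => fderiv ℝ v w h) =ᶠ[𝓝 x] fun y => fderiv ℝ u (z + y) h := by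
      intro h
      filter_upwards [e1.fderiv (𝕜 := ℝ)] with y hy
      rw [hy, fderiv_comp_add_left]
    have e3 : ∀ h : ℂ, fderiv ℝ (fun w => fderiv ℝ v w h) x h =
        fderiv ℝ (fun w => fderiv ℝ u w h) (z + x) h := by
      intro h
      rw [(e2 h).fderiv_eq]
      rw [fderiv_comp_add_left (f := fun w => fderiv ℝ u w h)]
    have e4 : lp v x = lp u (z + x) := by
      unfold lp
      rw [e3, e3]
    have e5 : v x = u (z + x) := e1.self_of_nhds
    rw [e4, e5]
    have := he (z + x) (mem x (by linarith))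
    linarith
  have h := mode0 hl hρ sv ev hr
  have e6 : v 0 = u z := by
    rw [hv]
    show b 0 * u (z + 0) = u z
    rw [b1 0 (by rw [norm_zero]; positivity), one_mul, add_zero]
  rw [e6] at h
  rw [← h]
  refine intervalIntegral.integral_congr fun θ _ => ?_
  show u (z + X r θ) = v (X r θ)
  rw [hv]
  show u (z + X r θ) = b (X r θ) * u (z + X r θ)
  rw [b1 (X r θ) (by rw [norm_X, abs_of_nonneg hr.1]; linarith [hr.2]), one_mul]

/-- the probability measure on angles -/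
def cu : Measure ℝ := (ENNReal.ofReal (2 * Real.pi))⁻¹ • volume.restrict (Set.Ioc (-Real.pi) Real.pi)

instance : IsProbabilityMeasure cu := ⟨by
  have pp := Real.pi_pos
  unfold cu
  rw [Measure.smul_apply, Measure.restrict_apply_univ, Real.volume_Ioc, smul_eq_mul]
  rw [show Real.pi - -Real.pi = 2 * Real.pi by ring]
  exact ENNReal.inv_mul_cancel (by
    rw [ne_eq, ENNReal.ofReal_eq_zero]; push Not; positivity) ENNReal.ofReal_ne_top⟩

lemma cu_int (f : ℝ → ℝ) : ∫ θ, f θ ∂cu = (2 * Real.pi)⁻¹ * ∫ θ in (-Real.pi)..Real.pi, f θ := by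
  have pp := Real.pi_pos
  unfold cu
  rw [integral_smul_measure, intervalIntegral.integral_of_le (by linarith), ENNReal.toReal_inv,
    ENNReal.toReal_ofReal (by positivity), smul_eq_mul]

lemma cu_cont {f : ℝ → ℝ} (hf : Continuous f) : Integrable f cu := by
  have pp := Real.pi_pos
  unfold cu
  refine Integrable.smul_measure ?_ (ENNReal.inv_ne_top.2 (by
    rw [ne_eq, ENNReal.ofReal_eq_zero]; push Not; positivity))
  exact (hf.integrableOn_Icc (a := -Real.pi) (b := Real.pi)).mono_set Set.Ioc_subset_Icc_self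

/-- the interior set is open -/
lemma inner_open {Ω : Set ℂ} (hΩ : IsOpen Ω) {ρ : ℝ} (hρ : 0 < ρ) :
    IsOpen {z : ℂ | closedBall z ρ ⊆ Ω} := by
  rw [Metric.isOpen_iff]
  intro z hz
  obtain ⟨δ, hδ, hs⟩ := (isCompact_closedBall z ρ).exists_cthickening_subset_open hΩ hz
  rw [cthickening_closedBall hδ.le hρ.le] at hs
  refine ⟨δ, hδ, fun w hw => ?_⟩
  refine subset_trans (closedBall_subset_closedBall' ?_) hs
  rw [mem_ball] at hw
  linarith

/-- **the exact inequality** -/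
theorem exact {Ω : Set ℂ} (hΩ : IsOpen Ω) {lam : ℝ} (hl : 0 < lam) {u : ℂ → ℝ}
    (su : ContDiffOn ℝ ∞ u Ω) (he : ∀ z ∈ Ω, lp u z + lam * u z = 0) {Φ : ℝ → ℝ}
    (cΦ : ConvexOn ℝ Set.univ Φ) (Φ0 : ∀ x, 0 ≤ Φ x) :
    ∫⁻ z in {z : ℂ | closedBall z (383 / 100 / √lam) ⊆ Ω}, ENNReal.ofReal (Φ (2 / 5 * u z)) ≤
      ∫⁻ z in Ω, ENNReal.ofReal (Φ (-u z)) := by
  have cc := Pool.Agent.X127.SW.conv_cont cΦ
  have sl : 0 < √lam := Real.sqrt_pos.2 hl
  obtain ⟨s, s0, s1, hs⟩ := exists_rad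
  obtain ⟨ρ, hρ⟩ : ∃ ρ, ρ = 383 / 100 / √lam := ⟨_, rfl⟩
  rw [← hρ]
  have ρ0 : 0 < ρ := by rw [hρ]; positivity
  obtain ⟨r, hr⟩ : ∃ r, r = s / √lam := ⟨_, rfl⟩
  have r0 : 0 < r := by rw [hr]; positivity
  have r1 : r ≤ ρ := by rw [hr, hρ]; gcongr
  have br : B 0 (lam * r ^ 2 / 4) = -(2 / 5) := by
    rw [← hs]
    congr 1
    rw [hr, div_pow, Real.sq_sqrt hl.le]
    field_simp
  obtain ⟨K, hK⟩ : ∃ K : Set ℂ, K = {z : ℂ | closedBall z ρ ⊆ Ω} := ⟨_, rfl⟩
  have oK : IsOpen K := by rw [hK]; exact inner_open hΩ ρ0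
  rw [← hK]
  obtain ⟨w, hw⟩ : ∃ w : ℂ → ℝ≥0∞, w = Ω.indicator fun z => ENNReal.ofReal (Φ (-u z)) := ⟨_, rfl⟩
  have mw : Measurable w := by
    rw [hw]
    have h1 : Measurable (Ω.indicator fun z => Φ (-u z)) := by
      classical
      rw [← Set.piecewise_eq_indicator]
      exact ContinuousOn.measurable_piecewise (cc.comp_continuousOn su.continuousOn.neg)
        continuous_const.continuousOn hΩ.measurableSet
    have h2 : (Ω.indicator fun z => ENNReal.ofReal (Φ (-u z))) =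
        fun z => ENNReal.ofReal (Ω.indicator (fun z => Φ (-u z)) z) := by
      funext z
      by_cases hz : z ∈ Ω
      · rw [Set.indicator_of_mem hz, Set.indicator_of_mem hz]
      · rw [Set.indicator_of_notMem hz, Set.indicator_of_notMem hz, ENNReal.ofReal_zero]
    rw [h2]
    exact h1.ennreal_ofReal
  have pt : ∀ z ∈ K, ENNReal.ofReal (Φ (2 / 5 * u z)) ≤ ∫⁻ θ, w (z + X r θ) ∂cu := by
    intro z hz
    have hz' : closedBall z ρ ⊆ Ω := by rw [hK] at hz; exact hz
    have inΩ : ∀ θ, z + X r θ ∈ Ω := fun θ => hz' (by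
      rw [mem_closedBall, dist_eq_norm, add_sub_cancel_left, norm_X, abs_of_pos r0]; exact r1)
    have c1 : Continuous fun θ => u (z + X r θ) := by
      have cx : Continuous fun θ => z + X r θ :=
        continuous_const.add (X_cont.comp (continuous_const.prodMk continuous_id))
      exact su.continuousOn.comp_continuous cx inΩ
    have m := mvp hΩ hl su he ρ0 hz' (r := r) ⟨r0.le, r1⟩
    have m2 : ∫ θ, -u (z + X r θ) ∂cu = 2 / 5 * u z := by
      rw [cu_int, intervalIntegral.integral_neg, m, br]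
      have pp := Real.pi_pos.ne'
      field_simp
    have c2 : Continuous fun θ => Φ (-u (z + X r θ)) := cc.comp c1.neg
    have e : ∫⁻ θ, w (z + X r θ) ∂cu = ∫⁻ θ, ENNReal.ofReal (Φ (-u (z + X r θ))) ∂cu := by
      refine lintegral_congr fun θ => ?_
      rw [hw, Set.indicator_of_mem (inΩ θ)]
    rw [e, ← ofReal_integral_eq_lintegral_ofReal (cu_cont c2) (ae_of_all _ fun θ => Φ0 _)]
    refine ENNReal.ofReal_le_ofReal ?_
    have h := cΦ.map_integral_le (μ := cu) (f := fun θ => -u (z + X r θ)) cc.continuousOn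
      isClosed_univ (ae_of_all _ fun _ => Set.mem_univ _) (cu_cont c1.neg) (cu_cont c2)
    rw [m2] at h
    exact h
  calc ∫⁻ z in K, ENNReal.ofReal (Φ (2 / 5 * u z)) ≤
      ∫⁻ z in K, (∫⁻ θ, w (z + X r θ) ∂cu) := setLIntegral_mono' oK.measurableSet pt
    _ ≤ ∫⁻ z, (∫⁻ θ, w (z + X r θ) ∂cu) := setLIntegral_le_lintegral _ _
    _ = ∫⁻ θ, (∫⁻ z, w (z + X r θ)) ∂cu := by
        refine lintegral_lintegral_swap ?_
        have : Measurable (Function.uncurry fun (z : ℂ) (θ : ℝ) => w (z + X r θ)) := by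
          refine mw.comp ?_
          have : Continuous fun p : ℂ × ℝ => p.1 + X r p.2 :=
            continuous_fst.add (X_cont.comp (continuous_const.prodMk continuous_snd))
          exact this.measurable
        exact this.aemeasurable
    _ = ∫⁻ _, (∫⁻ z, w z) ∂cu := by
        refine lintegral_congr fun θ => ?_
        exact lintegral_add_right_eq_self w (X r θ)
    _ = ∫⁻ z, w z := by rw [lintegral_const, measure_univ, mul_one]
    _ = ∫⁻ z in Ω, ENNReal.ofReal (Φ (-u z)) := by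
        rw [hw, lintegral_indicator hΩ.measurableSet]

end

end Pool.Agent.X127.PB
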