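import Pool.Agent.X127.PB.Gr2

/-! # Disc averages and local maxima -/

set_option autoImplicit false
open MeasureTheory Filter Topology Metric
open scoped ContDiff ENNReal

namespace Pool.Agent.X127.PB

open Pool.Agent.TH298.Sch (X er norm_X X_cont)
open TH259.NS (B B_cont B_zero B_deriv B_ode)
open Pool.Agent.X127.SW (conv_cont)

noncomputable section

/-- polar coordinates on a disc -/
lemma disc {g : ℂ → ℝ} (cg : Continuous g) {R : ℝ} (hR : 0 ≤ R) :
    ∫ w in closedBall (0 : ℂ) R, g w = ∫ r in (0 : ℝ)..R, r * ∫ θ in (-Real.pi)..Real.pi,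
      g (X r θ) := by
  have pp := Real.pi_pos
  rw [← integral_indicator isClosed_closedBall.measurableSet,
    ← Complex.integral_comp_polarCoord_symm]
  have e1 : ∀ p : ℝ × ℝ, p ∈ polarCoord.target →
      p.1 • (closedBall (0 : ℂ) R).indicator g (Complex.polarCoord.symm p) =
      (Set.Ioc (0 : ℝ) R ×ˢ Set.Ioo (-Real.pi) Real.pi).indicator
        (fun p => p.1 * g (X p.1 p.2)) p := by
    intro p hp
    rw [polarCoord_target] at hp
    obtain ⟨h1, h2⟩ := hp
    have h1 : 0 < p.1 := h1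
    have ex : Complex.polarCoord.symm p = X p.1 p.2 := by
      rw [Complex.polarCoord_symm_apply]
      rfl
    rw [ex]
    by_cases h : p.1 ≤ R
    · rw [Set.indicator_of_mem (show X p.1 p.2 ∈ closedBall (0 : ℂ) R by
        rw [mem_closedBall, dist_zero_right, norm_X, abs_of_pos h1]; exact h),
        Set.indicator_of_mem (show p ∈ Set.Ioc (0 : ℝ) R ×ˢ Set.Ioo (-Real.pi) Real.pi from
          ⟨⟨h1, h⟩, h2⟩), smul_eq_mul]
    · rw [Set.indicator_of_notMem (show X p.1 p.2 ∉ closedBall (0 : ℂ) R by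
        rw [mem_closedBall, dist_zero_right, norm_X, abs_of_pos h1]; exact h),
        Set.indicator_of_notMem (show p ∉ Set.Ioc (0 : ℝ) R ×ˢ Set.Ioo (-Real.pi) Real.pi from
          fun hh => h hh.1.2), smul_zero]
  rw [setIntegral_congr_fun polarCoord.open_target.measurableSet e1]
  have mS : MeasurableSet (Set.Ioc (0 : ℝ) R ×ˢ Set.Ioo (-Real.pi) Real.pi) :=
    measurableSet_Ioc.prod measurableSet_Ioo
  rw [setIntegral_indicator mS]
  have e2 : polarCoord.target ∩ Set.Ioc (0 : ℝ) R ×ˢ Set.Ioo (-Real.pi) Real.pi =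
      Set.Ioc (0 : ℝ) R ×ˢ Set.Ioo (-Real.pi) Real.pi := by
    rw [polarCoord_target]
    refine Set.inter_eq_right.2 fun p hp => ⟨hp.1.1, hp.2⟩
  rw [e2]
  have cG : Continuous fun p : ℝ × ℝ => p.1 * g (X p.1 p.2) :=
    continuous_fst.mul (cg.comp X_cont)
  have iG : IntegrableOn (fun p : ℝ × ℝ => p.1 * g (X p.1 p.2))
      (Set.Ioc (0 : ℝ) R ×ˢ Set.Ioo (-Real.pi) Real.pi) (volume.prod volume) := by
    rw [← Measure.volume_eq_prod]
    refine (cG.continuousOn.integrableOn_compact (isCompact_Icc.prod isCompact_Icc)).mono_set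
      (t := Set.Icc (0 : ℝ) R ×ˢ Set.Icc (-Real.pi) Real.pi) ?_
    exact Set.prod_mono Set.Ioc_subset_Icc_self Set.Ioo_subset_Icc_self
  rw [Measure.volume_eq_prod, setIntegral_prod _ iG, intervalIntegral.integral_of_le hR]
  refine setIntegral_congr_fun measurableSet_Ioc fun r _ => ?_
  show ∫ θ in Set.Ioo (-Real.pi) Real.pi, r * g (X r θ) = _
  rw [integral_const_mul, intervalIntegral.integral_of_le (by linarith),
    integral_Ioc_eq_integral_Ioo]

lemma B1_low' : (1 / 4 : ℝ) ≤ 4 / 9 * B 1 1 := by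
  have e0 := Real.exp_pos 1
  have e1 := Real.exp_one_lt_d9
  have b5 : ∀ s ∈ Set.Icc (0 : ℝ) 1, -(Real.exp 1 / 120) ≤ B 5 s := by
    intro s hs
    have h := B_abs 5 (s := s) (by rw [abs_of_nonneg hs.1]; exact hs.2)
    have : ((Nat.factorial 5 : ℕ) : ℝ) = 120 := by norm_num [Nat.factorial]
    rw [this] at h
    exact (abs_le.1 h).1
  have b4 : ∀ s ∈ Set.Icc (0 : ℝ) 1, B 4 s ≤ 1 / 24 + Real.exp 1 / 120 * s := by
    intro s hs
    have h := up (f := fun x => 1 / 24 + Real.exp 1 / 120 * x - B 4 x)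
      (f' := fun x => Real.exp 1 / 120 + B 5 x) hs.1 (fun x _ => by
        have := (((hasDerivAt_id x).const_mul (Real.exp 1 / 120)).const_add (1 / 24)).sub
          (B_deriv 4 x)
        refine this.congr_deriv ?_
        ring) (fun x hx => by
        have := b5 x ⟨hx.1, hx.2.trans hs.2⟩
        linarith)
    have z : B 4 0 = 1 / 24 := by rw [B_zero]; norm_num [Nat.factorial]
    simp only [z] at h
    linarith
  have b3 : ∀ s ∈ Set.Icc (0 : ℝ) 1, 1 / 6 - s / 24 - Real.exp 1 / 240 * s ^ 2 ≤ B 3 s := by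
    intro s hs
    have h := up (f := fun x => B 3 x - (1 / 6 - x / 24 - Real.exp 1 / 240 * x ^ 2))
      (f' := fun x => 1 / 24 + Real.exp 1 / 120 * x - B 4 x) hs.1 (fun x _ => by
        have := (B_deriv 3 x).sub ((((hasDerivAt_id x).div_const 24).const_sub (1 / 6)).sub
          (((hasDerivAt_id x).pow 2).const_mul (Real.exp 1 / 240)))
        refine this.congr_deriv ?_
        simp only [id_eq]
        push_cast
        ring) (fun x hx => by
        have := b4 x ⟨hx.1, hx.2.trans hs.2⟩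
        linarith)
    have z : B 3 0 = 1 / 6 := by rw [B_zero]; norm_num [Nat.factorial]
    simp only [z] at h
    linarith
  have b2 : ∀ s ∈ Set.Icc (0 : ℝ) 1,
      B 2 s ≤ 1 / 2 - s / 6 + s ^ 2 / 48 + Real.exp 1 / 720 * s ^ 3 := by
    intro s hs
    have h := up (f := fun x => 1 / 2 - x / 6 + x ^ 2 / 48 + Real.exp 1 / 720 * x ^ 3 - B 2 x)
      (f' := fun x => B 3 x - (1 / 6 - x / 24 - Real.exp 1 / 240 * x ^ 2)) hs.1 (fun x _ => by
        have := (((((hasDerivAt_id x).div_const 6).const_sub (1 / 2)).add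
          (((hasDerivAt_id x).pow 2).div_const 48)).add
          (((hasDerivAt_id x).pow 3).const_mul (Real.exp 1 / 720))).sub (B_deriv 2 x)
        refine this.congr_deriv ?_
        simp only [id_eq]
        push_cast
        ring) (fun x hx => by
        have := b3 x ⟨hx.1, hx.2.trans hs.2⟩
        linarith)
    have z : B 2 0 = 1 / 2 := by rw [B_zero]; norm_num [Nat.factorial]
    simp only [z] at h
    linarith
  have b1 : ∀ s ∈ Set.Icc (0 : ℝ) 1,
      1 - s / 2 + s ^ 2 / 12 - s ^ 3 / 144 - Real.exp 1 / 2880 * s ^ 4 ≤ B 1 s := by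
    intro s hs
    have h := up (f := fun x => B 1 x -
        (1 - x / 2 + x ^ 2 / 12 - x ^ 3 / 144 - Real.exp 1 / 2880 * x ^ 4))
      (f' := fun x => 1 / 2 - x / 6 + x ^ 2 / 48 + Real.exp 1 / 720 * x ^ 3 - B 2 x)
      hs.1 (fun x _ => by
        have := (B_deriv 1 x).sub ((((((hasDerivAt_id x).div_const 2).const_sub 1).add
          (((hasDerivAt_id x).pow 2).div_const 12)).sub
          (((hasDerivAt_id x).pow 3).div_const 144)).sub
          (((hasDerivAt_id x).pow 4).const_mul (Real.exp 1 / 2880)))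
        refine this.congr_deriv ?_
        simp only [id_eq]
        push_cast
        ring) (fun x hx => by
        have := b2 x ⟨hx.1, hx.2.trans hs.2⟩
        linarith)
    have z : B 1 0 = 1 := by rw [B_zero]; norm_num [Nat.factorial]
    simp only [z] at h
    linarith
  have h := b1 1 ⟨by norm_num, le_rfl⟩
  norm_num at h ⊢
  linarith

/-- the disc mean value property -/
lemma disc_mv {lam : ℝ} (hl : 0 < lam) {v : ℂ → ℝ} {a : ℝ} (ha : 0 < a) (sv : ContDiff ℝ ∞ v)
    (he : ∀ x : ℂ, ‖x‖ < a → lp v x = -(lam * v x)) :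
    ∫ w in closedBall (0 : ℂ) a, v w = Real.pi * a ^ 2 * B 1 (lam * a ^ 2 / 4) * v 0 := by
  rw [disc sv.continuous ha.le]
  have e1 : ∫ r in (0 : ℝ)..a, r * ∫ θ in (-Real.pi)..Real.pi, v (X r θ) =
      ∫ r in (0 : ℝ)..a, 2 * Real.pi * v 0 * (r * B 0 (lam * r ^ 2 / 4)) := by
    refine intervalIntegral.integral_congr fun r hr => ?_
    rw [Set.uIcc_of_le ha.le] at hr
    show r * ∫ θ in (-Real.pi)..Real.pi, v (X r θ) = _
    rw [mode0 hl ha sv he hr]
    ring
  rw [e1, intervalIntegral.integral_const_mul]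
  have e2 : ∫ r in (0 : ℝ)..a, r * B 0 (lam * r ^ 2 / 4) = a ^ 2 / 2 * B 1 (lam * a ^ 2 / 4) := by
    have c : Continuous fun r : ℝ => r * B 0 (lam * r ^ 2 / 4) := by
      have := B_cont 0
      fun_prop
    have := intervalIntegral.integral_eq_sub_of_hasDerivAt (a := 0) (b := a)
      (f := fun r : ℝ => r ^ 2 / 2 * B 1 (lam * r ^ 2 / 4))
      (f' := fun r : ℝ => r * B 0 (lam * r ^ 2 / 4)) (fun r _ => by
        have h1 : HasDerivAt (fun r : ℝ => lam * r ^ 2 / 4) (lam * r / 2) r := by
          refine (((hasDerivAt_pow 2 r).const_mul lam).div_const 4).congr_deriv ?_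
          push_cast
          ring
        have h2 := (B_deriv 1 (lam * r ^ 2 / 4)).comp r h1
        have h3 := ((hasDerivAt_pow 2 r).div_const 2).mul h2
        refine h3.congr_deriv ?_
        have h4 := B_ode 0 (lam * r ^ 2 / 4)
        simp only [Function.comp_apply]
        push_cast at h4 ⊢
        simp only [zero_add] at h4
        linear_combination (-r) * h4) (c.intervalIntegrable _ _)
    rw [this]
    simp
  rw [e2]
  ring

end

end Pool.Agent.X127.PB
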