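import Pool.Agent.X127.PB.Mx

/-! # The maximal inequality -/

set_option autoImplicit false
open MeasureTheory Filter Topology Metric
open scoped ContDiff ENNReal

namespace Pool.Agent.X127.PB

open Pool.Agent.TH298.Sch (X er norm_X X_cont)
open TH259.NS (B)
open Pool.Agent.X127.SW (conv_cont)

noncomputable section

/-- the normalised area of a disc -/
def cb (b : ℝ) : Measure ℂ := (volume (closedBall (0 : ℂ) b))⁻¹ • volume.restrict (closedBall 0 b)

lemma vol_pos {b : ℝ} (hb : 0 < b) : volume (closedBall (0 : ℂ) b) ≠ 0 :=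
  (measure_closedBall_pos volume 0 hb).ne'

lemma vol_fin (b : ℝ) : volume (closedBall (0 : ℂ) b) ≠ ⊤ := measure_closedBall_lt_top.ne

lemma cb_prob {b : ℝ} (hb : 0 < b) : IsProbabilityMeasure (cb b) := ⟨by
  unfold cb
  rw [Measure.smul_apply, Measure.restrict_apply_univ, smul_eq_mul]
  exact ENNReal.inv_mul_cancel (vol_pos hb) (vol_fin b)⟩

lemma vol_real {b : ℝ} (hb : 0 < b) : (volume (closedBall (0 : ℂ) b)).toReal = Real.pi * b ^ 2 := by
  rw [Complex.volume_closedBall, ENNReal.toReal_mul, ENNReal.toReal_pow,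
    ENNReal.toReal_ofReal hb.le]
  simp
  ring

lemma cb_int {b : ℝ} (hb : 0 < b) (f : ℂ → ℝ) :
    ∫ w, f w ∂(cb b) = (Real.pi * b ^ 2)⁻¹ * ∫ w in closedBall (0 : ℂ) b, f w := by
  unfold cb
  rw [integral_smul_measure, ENNReal.toReal_inv, vol_real hb, smul_eq_mul]

lemma cb_cont {b : ℝ} {f : ℂ → ℝ} (hf : ContinuousOn f (closedBall 0 b)) (hb : 0 < b) :
    Integrable f (cb b) := by
  unfold cb
  refine Integrable.smul_measure ?_ (ENNReal.inv_ne_top.2 (vol_pos hb))
  exact hf.integrableOn_compact (isCompact_closedBall 0 b)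

lemma cb_ae {b : ℝ} : ∀ᵐ w ∂(cb b), w ∈ closedBall (0 : ℂ) b := by
  unfold cb
  exact (ae_restrict_mem isClosed_closedBall.measurableSet).filter_mono
    (Measure.smul_absolutelyContinuous.ae_le)

/-- averaging over discs -/
lemma avgB {K Ω : Set ℂ} (hK : MeasurableSet K) (hΩ : IsOpen Ω) {b : ℝ} (hb : 0 < b)
    (hKΩ : ∀ z ∈ K, closedBall z b ⊆ Ω) {f g : ℂ → ℝ} (g0 : ∀ z, 0 ≤ g z) (cg : ContinuousOn g Ω)
    (h : ∀ z ∈ K, f z ≤ ∫ w, g (z + w) ∂(cb b)) :
    ∫⁻ z in K, ENNReal.ofReal (f z) ≤ ∫⁻ z in Ω, ENNReal.ofReal (g z) := by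
  have pb := cb_prob hb
  obtain ⟨w, hw⟩ : ∃ w : ℂ → ℝ≥0∞, w = Ω.indicator fun z => ENNReal.ofReal (g z) := ⟨_, rfl⟩
  have mw : Measurable w := by
    rw [hw]
    have h1 : Measurable (Ω.indicator g) := by
      classical
      rw [← Set.piecewise_eq_indicator]
      exact ContinuousOn.measurable_piecewise cg continuous_const.continuousOn hΩ.measurableSet
    have h2 : (Ω.indicator fun z => ENNReal.ofReal (g z)) =
        fun z => ENNReal.ofReal (Ω.indicator g z) := by
      funext z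
      by_cases hz : z ∈ Ω
      · rw [Set.indicator_of_mem hz, Set.indicator_of_mem hz]
      · rw [Set.indicator_of_notMem hz, Set.indicator_of_notMem hz, ENNReal.ofReal_zero]
    rw [h2]
    exact h1.ennreal_ofReal
  have inΩ : ∀ z ∈ K, ∀ y ∈ closedBall (0 : ℂ) b, z + y ∈ Ω := fun z hz y hy => hKΩ z hz (by
    rw [mem_closedBall, dist_eq_norm, add_sub_cancel_left]
    rwa [mem_closedBall, dist_zero_right] at hy)
  have pt : ∀ z ∈ K, ENNReal.ofReal (f z) ≤ ∫⁻ y, w (z + y) ∂(cb b) := by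
    intro z hz
    have c1 : ContinuousOn (fun y => g (z + y)) (closedBall 0 b) :=
      cg.comp (by fun_prop : Continuous fun y : ℂ => z + y).continuousOn fun y hy => inΩ z hz y hy
    have e : ∫⁻ y, w (z + y) ∂(cb b) = ∫⁻ y, ENNReal.ofReal (g (z + y)) ∂(cb b) := by
      refine lintegral_congr_ae ?_
      filter_upwards [cb_ae] with y hy
      rw [hw, Set.indicator_of_mem (inΩ z hz y hy)]
    rw [e, ← ofReal_integral_eq_lintegral_ofReal (cb_cont c1 hb) (ae_of_all _ fun θ => g0 _)]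
    exact ENNReal.ofReal_le_ofReal (h z hz)
  calc ∫⁻ z in K, ENNReal.ofReal (f z) ≤
      ∫⁻ z in K, (∫⁻ y, w (z + y) ∂(cb b)) := setLIntegral_mono' hK pt
    _ ≤ ∫⁻ z, (∫⁻ y, w (z + y) ∂(cb b)) := setLIntegral_le_lintegral _ _
    _ = ∫⁻ y, (∫⁻ z, w (z + y)) ∂(cb b) := by
        refine lintegral_lintegral_swap ?_
        have : Measurable (Function.uncurry fun (z y : ℂ) => w (z + y)) :=
          mw.comp (measurable_fst.add measurable_snd)
        exact this.aemeasurable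
    _ = ∫⁻ _, (∫⁻ z, w z) ∂(cb b) := by
        refine lintegral_congr fun y => ?_
        exact lintegral_add_right_eq_self w y
    _ = ∫⁻ z, w z := by rw [lintegral_const, measure_univ, mul_one]
    _ = ∫⁻ z in Ω, ENNReal.ofReal (g z) := by
        rw [hw, lintegral_indicator hΩ.measurableSet]

variable {Ω : Set ℂ} {lam : ℝ} {u : ℂ → ℝ}

/-- local maximum of `|u|` over the disc of radius `1/√λ` -/
def lmax (lam : ℝ) (u : ℂ → ℝ) (z : ℂ) : ℝ :=
  sSup ((fun y => |u (z + y)|) '' closedBall (0 : ℂ) (1 / √lam))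

/-- the pointwise bound -/
lemma pw (hΩ : IsOpen Ω) (hl : 0 < lam) (su : ContDiffOn ℝ ∞ u Ω)
    (he : ∀ z ∈ Ω, lp u z + lam * u z = 0) {z y : ℂ} (hz : closedBall z (3 / √lam) ⊆ Ω)
    (hy : ‖y‖ ≤ 1 / √lam) : |u (z + y)| / 4 ≤ ∫ w, |u (z + w)| ∂(cb (3 / √lam)) := by
  have pp := Real.pi_pos
  have sl : 0 < √lam := Real.sqrt_pos.2 hl
  have b0 : 0 < 3 / √lam := by positivity
  obtain ⟨a, ha⟩ : ∃ a, a = 2 / √lam := ⟨_, rfl⟩
  have a0 : 0 < a := by rw [ha]; positivity
  have ea : lam * a ^ 2 / 4 = 1 := by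
    rw [ha, div_pow, Real.sq_sqrt hl.le]
    field_simp
    norm_num
  have sub : closedBall (z + y) a ⊆ closedBall z (3 / √lam) := by
    refine closedBall_subset_closedBall' ?_
    rw [dist_eq_norm, add_sub_cancel_left, ha]
    have : 2 / √lam + 1 / √lam = 3 / √lam := by ring
    linarith
  obtain ⟨v, ρ', hρ', sv, ev1, ev2, -⟩ := loc hΩ su he a0 (sub.trans hz)
  have m := disc_mv hl a0 sv (fun x hx => ev1 x (hx.trans hρ'))
  have v0 : v 0 = u (z + y) := by
    have := ev2 0 (by rw [norm_zero]; exact a0.trans hρ')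
    rwa [add_zero] at this
  rw [ea, v0] at m
  have cu : ContinuousOn (fun w => |u w|) (closedBall z (3 / √lam)) :=
    (su.continuousOn.mono hz).abs
  have tr : ∀ (c : ℂ) (ρ : ℝ), ∫ w in closedBall (0 : ℂ) ρ, |u (c + w)| =
      ∫ w in closedBall c ρ, |u w| := by
    intro c ρ
    have h1 := (measurePreserving_add_left (volume : Measure ℂ) c).setIntegral_preimage_emb
      (MeasurableEquiv.addLeft c).measurableEmbedding (fun w => |u w|) (closedBall c ρ)
    have h2 : (fun x => c + x) ⁻¹' closedBall c ρ = closedBall (0 : ℂ) ρ := by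
      ext x
      simp [mem_closedBall, dist_eq_norm]
    rw [h2] at h1
    exact h1
  have h1 : |∫ w in closedBall (0 : ℂ) a, v w| ≤ ∫ w in closedBall z (3 / √lam), |u w| := by
    refine (abs_integral_le_integral_abs).trans ?_
    have h2 : ∫ w in closedBall (0 : ℂ) a, |v w| = ∫ w in closedBall (0 : ℂ) a, |u (z + y + w)| :=
      setIntegral_congr_fun isClosed_closedBall.measurableSet fun w hw => by
        rw [mem_closedBall, dist_zero_right] at hw
        show |v w| = |u (z + y + w)|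
        rw [ev2 w (lt_of_le_of_lt hw hρ')]
    rw [h2, tr]
    exact setIntegral_mono_set (cu.integrableOn_compact (isCompact_closedBall _ _))
      (ae_of_all _ fun w => abs_nonneg _) sub.eventuallyLE
  have hB := B1_low'
  have B0 : 0 < B 1 1 := by
    by_contra hc
    push Not at hc
    linarith
  rw [m, abs_mul, abs_of_pos (by positivity)] at h1
  rw [cb_int b0, tr]
  have e9 : (3 / √lam) ^ 2 = 9 / 4 * a ^ 2 := by
    rw [ha]; ring
  rw [e9, inv_mul_eq_div, le_div_iff₀ (by positivity)]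
  calc |u (z + y)| / 4 * (Real.pi * (9 / 4 * a ^ 2)) =
      Real.pi * a ^ 2 * (9 / 4 * (1 / 4)) * |u (z + y)| := by ring
    _ ≤ Real.pi * a ^ 2 * (9 / 4 * (4 / 9 * B 1 1)) * |u (z + y)| := by gcongr
    _ = Real.pi * a ^ 2 * B 1 1 * |u (z + y)| := by ring
    _ ≤ _ := h1

/-- **the maximal inequality** -/
theorem maxi (hΩ : IsOpen Ω) (hl : 0 < lam) (su : ContDiffOn ℝ ∞ u Ω)
    (he : ∀ z ∈ Ω, lp u z + lam * u z = 0) {Φ : ℝ → ℝ}
    (cΦ : ConvexOn ℝ Set.univ Φ) (ev : ∀ x, Φ (-x) = Φ x) (Φ0 : ∀ x, 0 ≤ Φ x) :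
    ∫⁻ z in {z : ℂ | closedBall z (3 / √lam) ⊆ Ω}, ENNReal.ofReal (Φ (lmax lam u z / 4)) ≤
      ∫⁻ z in Ω, ENNReal.ofReal (Φ (u z)) := by
  have cc := conv_cont cΦ
  have sl : 0 < √lam := Real.sqrt_pos.2 hl
  have b0 : 0 < 3 / √lam := by positivity
  have pb := cb_prob b0
  have ea : ∀ t, Φ |t| = Φ t := fun t => by
    rcases abs_choice t with h | h
    · rw [h]
    · rw [h, ev]
  refine avgB (inner_open hΩ b0).measurableSet hΩ b0 (fun z hz => hz) (fun z => Φ0 _)
    (cc.comp_continuousOn su.continuousOn) fun z hz => ?_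
  have hz : closedBall z (3 / √lam) ⊆ Ω := hz
  have hbb : 1 / √lam ≤ 3 / √lam := by gcongr; norm_num
  have inΩ : ∀ y ∈ closedBall (0 : ℂ) (3 / √lam), z + y ∈ Ω := fun y hy => hz (by
    rw [mem_closedBall, dist_eq_norm, add_sub_cancel_left]
    rwa [mem_closedBall, dist_zero_right] at hy)
  have cu : ContinuousOn (fun y => |u (z + y)|) (closedBall (0 : ℂ) (3 / √lam)) :=
    (su.continuousOn.comp (by fun_prop : Continuous fun y : ℂ => z + y).continuousOn inΩ).abs
  obtain ⟨y, hy, hmax⟩ := (isCompact_closedBall (0 : ℂ) (1 / √lam)).exists_sSup_image_eq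
    ⟨0, mem_closedBall_self (by positivity)⟩ (cu.mono (closedBall_subset_closedBall hbb))
  rw [mem_closedBall, dist_zero_right] at hy
  unfold lmax
  rw [hmax]
  have h1 := pw hΩ hl su he hz hy
  have k0 : 0 ≤ ∫ w, |u (z + w)| ∂(cb (3 / √lam)) := integral_nonneg fun _ => abs_nonneg _
  have h2 : Φ (|u (z + y)| / 4) ≤ Φ (∫ w, |u (z + w)| ∂(cb (3 / √lam))) :=
    even_mono cΦ ev (by rw [abs_of_nonneg (by positivity), abs_of_nonneg k0]; exact h1)
  have h3 := cΦ.map_integral_le (μ := cb (3 / √lam)) (f := fun w => |u (z + w)|) cc.continuousOn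
    isClosed_univ (ae_of_all _ fun _ => Set.mem_univ _) (cb_cont cu b0)
    (cb_cont (cc.comp_continuousOn cu) b0)
  simp only [ea] at h3
  exact h2.trans h3

end

end Pool.Agent.X127.PB
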